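import Pool.Agent.Lib.MP_16285c_agS.Top.Spec

/-!
# Change of fields: orbits over a smaller field (helper76)
-/

set_option autoImplicit false

namespace Pool.Agent.Lib.MP_16285c_agS

open Pool.Agent.Lib.MP_16285c_ag Pool.Agent.Lib.MP_16285c_agN

namespace TopConjM

/-- Evaluation commutes with a homomorphism of the coefficients. -/
theorem ev {K' k : Type} [Field K'] [Field k] (ι : K' →+* k) {n : ℕ} (y : Fin n → K')
    (G : MvPolynomial (Fin n) K') :
    MvPolynomial.eval (fun i => ι (y i)) (MvPolynomial.map ι G) = ι (MvPolynomial.eval y G) := by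
  induction G using MvPolynomial.induction_on with
  | C a => rw [MvPolynomial.map_C, MvPolynomial.eval_C, MvPolynomial.eval_C]
  | add p q hp hq => rw [map_add, map_add, map_add, map_add, hp, hq]
  | mul_X p i hp =>
    rw [map_mul, map_mul, map_mul, map_mul, hp, MvPolynomial.map_X, MvPolynomial.eval_X,
      MvPolynomial.eval_X]

/-- The same over a base field. -/
theorem evK {K K' k : Type} [Field K] [Field K'] [Field k] [Algebra K K'] [Algebra K k]
    (ι : K' →ₐ[K] k) {n : ℕ} (y : Fin n → K') (G : MvPolynomial (Fin n) K) :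
    MvPolynomial.eval (fun i => ι (y i)) (MvPolynomial.map (algebraMap K k) G) =
      ι (MvPolynomial.eval y (MvPolynomial.map (algebraMap K K') G)) := by
  have h1 : MvPolynomial.map (algebraMap K k) G =
      MvPolynomial.map (ι : K' →+* k) (MvPolynomial.map (algebraMap K K') G) := by
    rw [MvPolynomial.map_map, AlgHom.comp_algebraMap]
  rw [h1]
  exact ev (ι : K' →+* k) y _

/-- The orbit over the smaller field. -/
noncomputable def orb {K' : Type} [Field K'] {n : ℕ} (g : RM K' n) (y₀ : Fin n → K') :
    ℕ → Fin n → K'
  | 0 => y₀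
  | m + 1 => fun i => MvPolynomial.eval (orb g y₀ m) (g.num i) /
      MvPolynomial.eval (orb g y₀ m) (g.den i)

end TopConjM

open TopConjM in
/-- **Conj**: change of fields. -/
theorem tConj : StmtConjS := by
  refine ⟨?_, ?_⟩
  · intro K K' k _ _ _ _ _ ι n f x y₀ hx h0
    have hnum : ∀ i, (f.map (algebraMap K k)).num i = MvPolynomial.map (algebraMap K k) (f.num i) :=
      fun _ => rfl
    have hden : ∀ i, (f.map (algebraMap K k)).den i = MvPolynomial.map (algebraMap K k) (f.den i) :=
      fun _ => rfl
    have hnum' : ∀ i, (f.map (algebraMap K K')).num i =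
      MvPolynomial.map (algebraMap K K') (f.num i) := fun _ => rfl
    have hden' : ∀ i, (f.map (algebraMap K K')).den i =
      MvPolynomial.map (algebraMap K K') (f.den i) := fun _ => rfl
    have key : ∀ m, ∀ i, x m i = ι (orb (f.map (algebraMap K K')) y₀ m i) := by
      intro m
      induction m with
      | zero => exact h0
      | succ m ih =>
        intro i
        have hxm : x m = fun i => ι (orb (f.map (algebraMap K K')) y₀ m i) := funext ih
        obtain ⟨h1, h2⟩ := hx m i
        rw [hden, hxm, evK] at h1
        rw [hden, hnum, hxm, evK, evK] at h2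
        show x (m + 1) i = ι (MvPolynomial.eval (orb (f.map (algebraMap K K')) y₀ m)
          ((f.map (algebraMap K K')).num i) / MvPolynomial.eval (orb (f.map (algebraMap K K')) y₀ m)
          ((f.map (algebraMap K K')).den i))
        rw [map_div₀, hnum', hden', eq_div_iff h1]
        exact h2
    refine ⟨orb (f.map (algebraMap K K')) y₀, rfl, ?_, key⟩
    intro m i
    have hxm : x m = fun i => ι (orb (f.map (algebraMap K K')) y₀ m i) := funext (key m)
    obtain ⟨h1, -⟩ := hx m i
    rw [hden, hxm, evK] at h1
    have h3 : MvPolynomial.eval (orb (f.map (algebraMap K K')) y₀ m)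
        ((f.map (algebraMap K K')).den i) ≠ 0 := by
      intro h
      rw [hden'] at h
      rw [h, map_zero] at h1
      exact h1 rfl
    exact ⟨h3, div_mul_cancel₀ _ h3⟩
  · intro K' k _ _ ι n x y N p hxy hx G j hG
    have hxm : ∀ m, x m = fun i => ι (y m i) := fun m => funext (hxy m)
    have h1 : MvPolynomial.eval (x j) (MvPolynomial.map ι G) ≠ 0 := by
      rw [hxm j, TopConjM.ev]
      intro h
      exact hG ((map_eq_zero ι).mp h)
    obtain ⟨J, hJ⟩ := hx (MvPolynomial.map ι G) j h1
    refine ⟨J, fun s h => hJ s ?_⟩
    rw [hxm, TopConjM.ev, h, map_zero]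

end Pool.Agent.Lib.MP_16285c_agS
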