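import Pool.Agent.Lib.MP_16285c_agS.Top.Spec

/-!
# Descent of vanishing
-/

set_option autoImplicit false

namespace Pool.Agent.Lib.MP_16285c_agS

open Pool.Agent.Lib.MP_16285c_ag Pool.Agent.Lib.MP_16285c_agN

namespace TopDescM

/-- Decomposition of a polynomial with respect to a basis of the field of coefficients. -/
theorem decomp {K' k I : Type} [Field K'] [Field k] [Algebra K' k] (b : Module.Basis I K' k) {n : ℕ}
    (G : MvPolynomial (Fin n) k) : ∃ (s : Finset I) (g : I → MvPolynomial (Fin n) K'),
      G = ∑ j ∈ s, MvPolynomial.C (b j) * MvPolynomial.map (algebraMap K' k) (g j) := by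
  classical
  induction G using MvPolynomial.induction_on' with
  | monomial d a =>
    refine ⟨(b.repr a).support, fun j => MvPolynomial.monomial d (b.repr a j), ?_⟩
    have h1 : ∑ j ∈ (b.repr a).support, b j * algebraMap K' k (b.repr a j) = a := by
      conv_rhs => rw [← b.linearCombination_repr a, Finsupp.linearCombination_apply, Finsupp.sum]
      exact Finset.sum_congr rfl fun j _ => by rw [Algebra.smul_def, mul_comm]
    conv_lhs => rw [← h1, map_sum]
    exact Finset.sum_congr rfl fun j _ => by
      rw [MvPolynomial.map_monomial, MvPolynomial.C_mul_monomial]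
  | add p q hp hq =>
    obtain ⟨s, g, hs⟩ := hp
    obtain ⟨t, h, ht⟩ := hq
    refine ⟨s ∪ t, fun j => (if j ∈ s then g j else 0) + (if j ∈ t then h j else 0), ?_⟩
    have e1 : ∑ j ∈ s ∪ t, MvPolynomial.C (b j) *
        MvPolynomial.map (algebraMap K' k) (if j ∈ s then g j else 0) = p := by
      rw [hs, ← Finset.sum_subset (Finset.subset_union_left (s₁ := s) (s₂ := t))]
      · exact Finset.sum_congr rfl fun j hj => by rw [if_pos hj]
      · intro j _ hj
        rw [if_neg hj, map_zero, mul_zero]
    have e2 : ∑ j ∈ s ∪ t, MvPolynomial.C (b j) *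
        MvPolynomial.map (algebraMap K' k) (if j ∈ t then h j else 0) = q := by
      rw [ht, ← Finset.sum_subset (Finset.subset_union_right (s₁ := s) (s₂ := t))]
      · exact Finset.sum_congr rfl fun j hj => by rw [if_pos hj]
      · intro j _ hj
        rw [if_neg hj, map_zero, mul_zero]
    conv_lhs => rw [← e1, ← e2, ← Finset.sum_add_distrib]
    exact Finset.sum_congr rfl fun j _ => by rw [map_add, mul_add]

end TopDescM

open TopDescM in
/-- (Desc) -/
theorem tDesc : StmtDescS := by
  intro K' k _ _ ι n P y M hP G hG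
  let : Algebra K' k := ι.toAlgebra
  have hι : algebraMap K' k = ι := rfl
  let b := Module.Basis.ofVectorSpace K' k
  obtain ⟨s, g, hs⟩ := decomp b G
  rw [hι] at hs
  have h1 : ∀ j ∈ s, g j ∈ van y M := by
    intro j hj t
    have h2 := hG t
    rw [hs, map_sum] at h2
    have h3 : ∀ i ∈ s, MvPolynomial.eval (fun i => ι (y (M * t) i))
        (MvPolynomial.C (b i) * MvPolynomial.map ι (g i)) =
        MvPolynomial.eval (y (M * t)) (g i) • b i := by
      intro i _
      have h4 : MvPolynomial.eval (fun i => ι (y (M * t) i)) (MvPolynomial.map ι (g i)) =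
          ι (MvPolynomial.eval (y (M * t)) (g i)) := by
        rw [MvPolynomial.eval_map, ← MvPolynomial.eval₂_id, MvPolynomial.eval₂_comp_left]
        rfl
      rw [map_mul, MvPolynomial.eval_C, h4, Algebra.smul_def, hι, mul_comm]
    rw [Finset.sum_congr rfl h3] at h2
    exact linearIndependent_iff'.1 b.linearIndependent s _ h2 j hj
  rw [hs]
  refine Finset.dvd_sum fun j hj => ?_
  obtain ⟨q, hq⟩ := Ideal.mem_span_singleton.1 (hP (h1 j hj))
  rw [hq, map_mul]
  exact ⟨MvPolynomial.C (b j) * MvPolynomial.map ι q, by ring⟩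

end Pool.Agent.Lib.MP_16285c_agS
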