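import Pool.Agent.Lib.MP_16285c_agS.Top.Spec
import Pool.Agent.Lib.MP_16285c_agN.T2
import Pool.Agent.ZDO.Jac

/-!
# Dense orbits on surfaces: `StmtDom`, a rational map with Jacobian not zero is dominant
-/

set_option autoImplicit false

namespace Pool.Agent.Lib.MP_16285c_agS

open Pool.Agent.Lib.MP_16285c_ag Pool.Agent.Lib.MP_16285c_agN

namespace TopDomM

variable {K : Type} [Field K] {n : ℕ}

/-- The components of `f` as rational functions. -/
noncomputable def gq (f : RM K n) (i : Fin n) : RF n K := fr (f.num i) / fr (f.den i)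

theorem fr_ne {G : Pl n K} (h : G ≠ 0) : fr G ≠ 0 := by
  intro h1
  exact h ((IsFractionRing.injective (MvPolynomial (Fin n) K) (FractionRing (MvPolynomial (Fin n) K)))
    (h1.trans (map_zero _).symm))

theorem gq_mul (f : RM K n) (hd : ∀ i, f.den i ≠ 0) (i : Fin n) :
    gq f i * fr (f.den i) = fr (f.num i) :=
  div_mul_cancel₀ _ (fr_ne (hd i))

/-- The chain rule for a derivation of the field of fractions. -/
theorem der_aeval (D : Derivation K (RF n K) (RF n K)) (g : Fin n → RF n K) (G : Pl n K) :
    D (MvPolynomial.aeval g G) = ∑ i, MvPolynomial.aeval g (MvPolynomial.pderiv i G) * D (g i) := by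
  classical
  induction G using MvPolynomial.induction_on with
  | C a =>
    rw [MvPolynomial.aeval_C, D.map_algebraMap]
    refine (Finset.sum_eq_zero fun l _ => ?_).symm
    rw [MvPolynomial.pderiv_C, map_zero, zero_mul]
  | add P Q hP hQ =>
    rw [map_add, map_add, hP, hQ, ← Finset.sum_add_distrib]
    refine Finset.sum_congr rfl fun l _ => ?_
    rw [map_add, map_add, add_mul]
  | mul_X P i hP =>
    have h4 : ∀ l, MvPolynomial.aeval g (MvPolynomial.pderiv l (P * MvPolynomial.X i)) * D (g l) =
        g i * (MvPolynomial.aeval g (MvPolynomial.pderiv l P) * D (g l)) +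
          (if l = i then MvPolynomial.aeval g P * D (g i) else 0) := by
      intro l
      rw [MvPolynomial.pderiv_mul, MvPolynomial.pderiv_X, map_add, map_mul, map_mul,
        MvPolynomial.aeval_X]
      by_cases h : l = i
      · subst h
        rw [Pi.single_eq_same, map_one, if_pos rfl]
        ring
      · rw [if_neg h, Pi.single_eq_of_ne (Ne.symm h), map_zero]
        ring
    rw [Finset.sum_congr rfl fun l _ => h4 l, Finset.sum_add_distrib, ← Finset.mul_sum,
      Finset.sum_ite_eq' Finset.univ i, if_pos (Finset.mem_univ i), ← hP, map_mul,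
      MvPolynomial.aeval_X, Derivation.leibniz, smul_eq_mul, smul_eq_mul]
    ring

/-- The derivatives of the components. -/
theorem der_gq (f : RM K n) (hd : ∀ i, f.den i ≠ 0) (j : Fin n)
    (D : Derivation K (RF n K) (RF n K)) (hD : ∀ G : Pl n K, D (fr G) = fr (MvPolynomial.pderiv j G))
    (i : Fin n) : D (gq f i) * (fr (f.den i) * fr (f.den i)) = fr (wj f i j) := by
  have h1 := congrArg D (gq_mul f hd i)
  rw [Derivation.leibniz, hD, hD, smul_eq_mul, smul_eq_mul] at h1
  have h2 : fr (wj f i j) = fr (f.den i) * fr (MvPolynomial.pderiv j (f.num i)) -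
      fr (f.num i) * fr (MvPolynomial.pderiv j (f.den i)) := by
    simp only [fr, wj, Pool.Agent.ZDO.Wd, map_sub, map_mul]
    ring
  rw [h2, ← gq_mul f hd i]
  linear_combination (fr (f.den i)) * h1

/-- Constants: all partial derivatives are zero. -/
theorem eq_C_of_pderiv [CharZero K] (G : Pl n K) (h : ∀ i, MvPolynomial.pderiv i G = 0) :
    G = MvPolynomial.C (MvPolynomial.coeff 0 G) := by
  rw [← MvPolynomial.totalDegree_eq_zero_iff_eq_C, MvPolynomial.totalDegree_eq_zero_iff]
  intro m hm i
  by_contra hmi
  exact T2M.not_mem_vars G i (h i) ((MvPolynomial.mem_vars_iff_mem_support i).2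
    ⟨m, hm, Finsupp.mem_support_iff.2 hmi⟩)

theorem inj_aux [CharZero K] (f : RM K n) (hd : ∀ i, f.den i ≠ 0) (hj : jac f ≠ 0) :
    ∀ (d : ℕ) (G : Pl n K), G.totalDegree < d → MvPolynomial.aeval (gq f) G = 0 → G = 0 := by
  classical
  intro d
  induction d with
  | zero => intro G hG; exact absurd hG (Nat.not_lt_zero _)
  | succ d ih =>
    intro G hG h0
    let W : Matrix (Fin n) (Fin n) (RF n K) := Matrix.of fun i l => fr (wj f i l)
    have hW : W.det ≠ 0 := by
      have h1 : fr (jac f) = W.det := by
        rw [jac, Pool.Agent.ZDO.Jc, fr, RingHom.map_det]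
        rfl
      rw [← h1]
      exact fr_ne hj
    have hc : ∀ j, ∑ i, MvPolynomial.aeval (gq f) (MvPolynomial.pderiv i G) /
        (fr (f.den i) * fr (f.den i)) * fr (wj f i j) = 0 := by
      intro j
      obtain ⟨D, hD⟩ := Pool.Agent.ZDO.exists_derivation (K := K) (n := n)
        (fun l => if l = j then 1 else 0)
      have hD' : ∀ G : Pl n K, D (fr G) = fr (MvPolynomial.pderiv j G) := by
        intro G
        rw [fr, hD, Finset.sum_eq_single j]
        · rw [if_pos rfl, mul_one]
        · intro l _ hl
          rw [if_neg hl, mul_zero]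
        · intro h
          exact absurd (Finset.mem_univ j) h
      have h1 := der_aeval D (gq f) G
      rw [h0, map_zero] at h1
      rw [h1]
      refine Finset.sum_congr rfl fun i _ => ?_
      rw [← der_gq f hd j D hD' i]
      have h2 : fr (f.den i) ≠ 0 := fr_ne (hd i)
      field_simp
    have hv : Matrix.vecMul (fun i => MvPolynomial.aeval (gq f) (MvPolynomial.pderiv i G) /
        (fr (f.den i) * fr (f.den i))) W = 0 := by
      ext j
      exact hc j
    have hz := Matrix.eq_zero_of_vecMul_eq_zero hW hv
    have hp : ∀ i, MvPolynomial.pderiv i G = 0 := by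
      intro i
      by_contra hi
      have h1 : MvPolynomial.aeval (gq f) (MvPolynomial.pderiv i G) /
        (fr (f.den i) * fr (f.den i)) = 0 := congrFun hz i
      have h2 : fr (f.den i) ≠ 0 := fr_ne (hd i)
      rw [div_eq_zero_iff, or_iff_left (mul_ne_zero h2 h2)] at h1
      have h3 := T2M.totalDegree_pderiv G i hi
      exact hi (ih _ (by omega) h1)
    have hC := eq_C_of_pderiv G hp
    rw [hC, MvPolynomial.aeval_C] at h0
    have h3 : MvPolynomial.coeff 0 G = 0 :=
      (algebraMap K (RF n K)).injective (h0.trans (map_zero _).symm)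
    rw [hC, h3, map_zero]

end TopDomM

open TopDomM

theorem tDom : StmtDom := by
  intro K _ _ n f hd hj
  have hinj : Function.Injective (MvPolynomial.aeval (gq f) : Pl n K →ₐ[K] RF n K) := by
    rw [injective_iff_map_eq_zero]
    intro G hG
    exact inj_aux f hd hj _ G (Nat.lt_succ_self _) hG
  refine ⟨IsFractionRing.liftAlgHom hinj, fun i => ⟨hd i, ?_⟩⟩
  rw [gen, fr, IsFractionRing.liftAlgHom_apply, IsFractionRing.lift_algebraMap]
  rw [show (MvPolynomial.aeval (gq f) : Pl n K →ₐ[K] RF n K).toRingHom (MvPolynomial.X i) =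
    gq f i from MvPolynomial.aeval_X _ _]
  exact gq_mul f hd i

end Pool.Agent.Lib.MP_16285c_agS
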