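import Pool.Agent.Lib.MP_16285c_agS.Top.Spec

/-!
# Dense orbits on surfaces: final assembly for the model
-/

set_option autoImplicit false

namespace Pool.Agent.Lib.MP_16285c_agS

open Pool.Agent.Lib.MP_16285c_ag Pool.Agent.Lib.MP_16285c_agN

namespace TopFinM

theorem sig_fr {K : Type} [Field K] {n : ℕ} {f : RM K n} {σ : RF n K →ₐ[K] RF n K} (h : Of f σ)
    (G : Pl n K) : σ (fr G) = f.comp G := by
  have e : σ.comp (IsScalarTower.toAlgHom K (Pl n K) (RF n K)) = f.comp := by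
    apply MvPolynomial.algHom_ext
    intro i
    rw [RM.comp, MvPolynomial.aeval_X]
    have h1 : fr (f.den i) ≠ 0 := fr_ne_zero (h i).1
    exact eq_div_of_mul_eq h1 (h i).2
  exact congrArg (fun u : Pl n K →ₐ[K] RF n K => u G) e

theorem prime_span {K : Type} [Field K] {n : ℕ} {P : Pl n K} (hP : Irreducible P) :
    (Ideal.span {P}).IsPrime :=
  (Ideal.span_singleton_prime hP.ne_zero).2 (UniqueFactorizationMonoid.irreducible_iff_prime.1 hP)

/-- Descent of polynomials. -/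
theorem desc_poly {K L : Type} [Field K] [Field L] [Algebra K L] {n : ℕ} (G : Pl n L)
    (h : ∀ m ∈ G.support, MvPolynomial.coeff m G ∈ Set.range (algebraMap K L)) :
    ∃ G₀ : Pl n K, MvPolynomial.map (algebraMap K L) G₀ = G := by
  classical
  choose! u hu using h
  refine ⟨∑ m ∈ G.support, MvPolynomial.monomial m (u m), ?_⟩
  rw [map_sum]
  conv_rhs => rw [G.as_sum]
  refine Finset.sum_congr rfl fun m hm => ?_
  rw [MvPolynomial.map_monomial, hu m hm]

theorem desc_rm {K L : Type} [Field K] [Field L] [Algebra K L] {n : ℕ} (f : RM L n)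
    (h : ∀ i, ∃ G₀ : Pl n K, MvPolynomial.map (algebraMap K L) G₀ = f.num i)
    (h' : ∀ i, ∃ G₀ : Pl n K, MvPolynomial.map (algebraMap K L) G₀ = f.den i) :
    ∃ f₀ : RM K n, f₀.map (algebraMap K L) = f := by
  choose m hm using h
  choose d hd using h'
  refine ⟨⟨m, d⟩, ?_⟩
  rw [RM.map]
  cases f
  congr 1
  · funext i
    exact hm i
  · funext i
    exact hd i

theorem fg_closure {k : Type} [Field k] (S : Finset k) :
    ∃ S' : Finset (Subfield.closure (S : Set k)),
      Subfield.closure (S' : Set (Subfield.closure (S : Set k))) = ⊤ := by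
  classical
  refine ⟨S.attach.image fun s => ⟨s.1, Subfield.subset_closure s.2⟩, ?_⟩
  rw [eq_top_iff]
  rintro ⟨x, hx⟩ -
  induction hx using Subfield.closure_induction with
  | mem y hy =>
    apply Subfield.subset_closure
    rw [Finset.mem_coe, Finset.mem_image]
    exact ⟨⟨y, hy⟩, Finset.mem_attach _ _, rfl⟩
  | one => exact one_mem _
  | add y z hy hz ihy ihz => exact add_mem ihy ihz
  | neg y hy ih => exact neg_mem ih
  | inv y hy ih => exact inv_mem ih
  | mul y z hy hz ihy ihz => exact mul_mem ihy ihz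

/-- A shift by a multiple of `p`. -/
theorem lies_add {k : Type} [Field k] (V : ValuationSubring k) (p : ℕ)
    (hp : CharP (IsLocalRing.ResidueField V) p) (x : k) (a : IsLocalRing.ResidueField V)
    (h : Lies V x a) (q : ℕ) (hq : p ∣ q) (j : ℤ) : Lies V (x + (q : k) * (j : k)) a := by
  obtain ⟨h0, h1⟩ := h
  have hpV : (q : k) * (j : k) ∈ V := mul_mem (natCast_mem V q) (intCast_mem V j)
  refine ⟨add_mem h0 hpV, ?_⟩
  obtain ⟨r, rfl⟩ := hq
  have h2 : IsLocalRing.residue V (⟨((p * r : ℕ) : k) * (j : k), hpV⟩ : V) = 0 := by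
    have h3 : (⟨((p * r : ℕ) : k) * (j : k), hpV⟩ : V) = (p : V) * (r : V) * (j : V) := by
      apply Subtype.ext
      push_cast
      ring
    rw [h3, map_mul, map_mul, map_natCast, CharP.cast_eq_zero (IsLocalRing.ResidueField V) p,
      zero_mul, zero_mul]
  have h4 : (⟨x + ((p * r : ℕ) : k) * (j : k), add_mem h0 hpV⟩ : V) =
      ⟨x, h0⟩ + ⟨((p * r : ℕ) : k) * (j : k), hpV⟩ := rfl
  rw [h4, map_add, h1, h2, add_zero]

/-- The value of `P` at a point over `t`. -/
theorem eval_cons {K k : Type} [Field K] [Field k] [Algebra K k] (P : Pl 3 K) (t : Fin 2 → K)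
    (z : k) : MvPolynomial.eval (Fin.cons z (fun i => algebraMap K k (t i)) : Fin 3 → k)
      (MvPolynomial.map (algebraMap K k) P) =
    Polynomial.eval₂ (algebraMap K k) z
      ((MvPolynomial.finSuccEquiv K 2 P).map (MvPolynomial.eval t)) := by
  obtain ⟨Q, rfl⟩ := Pool.Agent.Lib.MP_16285c_ag.up_surjective P
  rw [map_up, eval_up, finSuccEquiv_up, ev_map, Polynomial.eval_map]
  rfl

theorem eval_pt {K K' k : Type} [Field K] [Field K'] [Field k] [Algebra K K'] [Algebra K k]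
    (ι : K' →ₐ[K] k) {n : ℕ} (y : Fin n → K') (x : Fin n → k) (h : ∀ i, x i = ι (y i))
    (G : Pl n K) :
    MvPolynomial.eval x (MvPolynomial.map (algebraMap K k) G) = ι (MvPolynomial.aeval y G) := by
  have hx : x = fun i => ι (y i) := funext h
  rw [hx, MvPolynomial.eval_map, ← MvPolynomial.aeval_def]
  have e : MvPolynomial.aeval (fun i => ι (y i)) = ι.comp (MvPolynomial.aeval y : Pl n K →ₐ[K] K') := by
    apply MvPolynomial.algHom_ext
    intro i
    rw [MvPolynomial.aeval_X, AlgHom.comp_apply, MvPolynomial.aeval_X]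
  rw [e]
  rfl

theorem noR_pow {k : Type} [Field k] [IsAlgClosed k] [CharZero k] {P : Pl 3 k} {f : RM k 3}
    (hP : Irreducible P) (hno : NoIS f P) {σ : RF 3 k →ₐ[k] RF 3 k} (hOf : Of f σ)
    (hpr : Pres σ (Ideal.span {P}))
    (hRes : StmtResF) (h1 : StmtG1) (hNoE : StmtNoE) (hNoPow : StmtNoPowE) (M : ℕ) (hM : 1 ≤ M) :
    NoR (σ ^ M) P := by
  have hprime := prime_span hP
  have h0 : NoR σ P := by
    intro A B hB hE
    apply hno A B hB
    obtain ⟨E, N, hE, he⟩ := hE
    refine ⟨E, N, hE, ?_⟩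
    rw [he, sig_fr hOf, sig_fr hOf]
  obtain ⟨ρ, hρ⟩ := hRes 3 k σ (Ideal.span {P}) hprime hpr (FractionRing (CR (Ideal.span {P})))
  rw [hNoE k P (σ ^ M) (FractionRing (CR (Ideal.span {P}))) (ρ ^ M)
    (h1.2.2 k 3 σ (Ideal.span {P}) _ ρ hρ M)]
  exact hNoPow k _ ρ ((hNoE k P σ _ ρ hρ).1 h0) M hM

/-- The set of the coefficients. -/
noncomputable def cf {k : Type} [Field k] {n : ℕ} (G : Pl n k) : Finset k := by
  classical exact G.support.image fun m => MvPolynomial.coeff m G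

theorem desc_cf {k : Type} [Field k] {n : ℕ} (S : Finset k) (G : Pl n k) (h : cf G ⊆ S) :
    ∃ G₀ : Pl n (Subfield.closure (S : Set k)),
      MvPolynomial.map (algebraMap (Subfield.closure (S : Set k)) k) G₀ = G := by
  classical
  apply desc_poly
  intro m hm
  have h2 : MvPolynomial.coeff m G ∈ S := h (by
    unfold cf
    exact Finset.mem_image_of_mem _ hm)
  exact ⟨⟨_, Subfield.subset_closure h2⟩, rfl⟩

end TopFinM

open TopFinM in
theorem tFinS (hBox : StmtBoxS) (hDom : StmtDom) (hPresS : StmtPresS) (hRes : StmtResF)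
    (h1 : StmtG1) (hNoE : StmtNoE) (hNoPow : StmtNoPowE) (hNoDesc : StmtNoDesc)
    (hInvD : StmtInvD) (hLift : StmtLiftC2) (hHit : StmtHitPt) (hDesc : StmtDesc)
    (hCore : StmtCoreS) (hConj : StmtConjS) (hDescS : StmtDescS) : StmtModelS := by
  classical
  intro k _ _ _ P f hP hmon hinv hno b hb
  have hPp : Prime P := UniqueFactorizationMonoid.irreducible_iff_prime.1 hP
  obtain ⟨hden, hjac, hjX, E₀, N₀, hE₀, hEN⟩ := id hinv
  obtain ⟨σ, hOf⟩ := hDom k 3 f (fun i h0 => hden i (by rw [h0]; exact dvd_zero _))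
    (fun h0 => hjac (by rw [h0]; exact dvd_zero _))
  have hpr := hPresS k P f σ hP hOf hinv
  have hB : ¬ P ∣ b * jac f := fun h => (hPp.dvd_or_dvd h).elim hb hjac
  obtain ⟨V, p, a, N, hp, -, hch, hN, hr, hroot, hbox⟩ := hBox k P f hP hmon hinv _ hB 0
  obtain ⟨V', p', a', N', hp', hpp', hch', hN', hr', hroot', hbox'⟩ :=
    hBox k P f hP hmon hinv _ hB p
  have hne : p ≠ p' := by omega
  have hM : 1 ≤ N * N' := Nat.mul_pos (by omega) (by omega)
  have hnoM := noR_pow hP hno hOf hpr hRes h1 hNoE hNoPow (N * N') hM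
  obtain ⟨c, hcV, hcV'⟩ := hLift k 2 V V' p p' hp hp' hne hch hch' (fun i => a i.succ)
    (fun i => a' i.succ) (hr.imp fun r h => ⟨h.1, fun i => h.2 i.succ⟩)
    (hr'.imp fun r h => ⟨h.1, fun i => h.2 i.succ⟩)
  -- the field of definition
  set S : Finset k := cf P ∪ (cf E₀ ∪ (cf N₀ ∪ ((Finset.univ.biUnion fun i : Fin 3 =>
    cf (f.num i) ∪ cf (f.den i)) ∪ Finset.univ.image c))) with hS
  set K : Subfield k := Subfield.closure (S : Set k) with hK
  have hSP : cf P ⊆ S := fun s hs => by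
    rw [hS, Finset.mem_union]
    exact Or.inl hs
  have hSE : cf E₀ ⊆ S := fun s hs => by
    rw [hS, Finset.mem_union, Finset.mem_union]
    exact Or.inr (Or.inl hs)
  have hSN : cf N₀ ⊆ S := fun s hs => by
    rw [hS, Finset.mem_union, Finset.mem_union, Finset.mem_union]
    exact Or.inr (Or.inr (Or.inl hs))
  have hSnum : ∀ i, cf (f.num i) ⊆ S := fun i s hs => by
    rw [hS, Finset.mem_union, Finset.mem_union, Finset.mem_union, Finset.mem_union]
    refine Or.inr (Or.inr (Or.inr (Or.inl ?_)))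
    exact Finset.mem_biUnion.2 ⟨i, Finset.mem_univ _, Finset.mem_union_left _ hs⟩
  have hSden : ∀ i, cf (f.den i) ⊆ S := fun i s hs => by
    rw [hS, Finset.mem_union, Finset.mem_union, Finset.mem_union, Finset.mem_union]
    refine Or.inr (Or.inr (Or.inr (Or.inl ?_)))
    exact Finset.mem_biUnion.2 ⟨i, Finset.mem_univ _, Finset.mem_union_right _ hs⟩
  have hSc : ∀ i, c i ∈ S := fun i => by
    rw [hS, Finset.mem_union, Finset.mem_union, Finset.mem_union, Finset.mem_union]
    exact Or.inr (Or.inr (Or.inr (Or.inr (Finset.mem_image_of_mem _ (Finset.mem_univ _)))))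
  obtain ⟨P₀, hP₀⟩ := desc_cf S P hSP
  obtain ⟨E₁, hE₁⟩ := desc_cf S E₀ hSE
  obtain ⟨N₁, hN₁⟩ := desc_cf S N₀ hSN
  obtain ⟨f₀, hf₀⟩ := desc_rm (K := K) f (fun i => desc_cf S _ (hSnum i))
    (fun i => desc_cf S _ (hSden i))
  set cK : Fin 2 → K := fun i => ⟨c i, Subfield.subset_closure (hSc i)⟩ with hcK
  have hirr₀ : Irreducible P₀ := hInvD.2.1 K k 3 P₀ (by rw [hP₀]; exact hP)
  have hmon₀ : MonZ P₀ := (hInvD.2.2 K k P₀).1 (by rw [hP₀]; exact hmon)
  have hinv₀ : InvS f₀ P₀ := by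
    apply hInvD.1 K k P₀ E₁ N₁ f₀
    · intro i
      rw [hP₀, hf₀]
      exact hden i
    · rw [hP₀, hf₀]
      exact hjac
    · rw [hP₀, hf₀]
      exact hjX
    · rw [hP₀, hE₁]
      exact hE₀
    · rw [hP₀, hN₁, hE₁, hf₀]
      exact hEN
  obtain ⟨σ₀, hσ₀, hc₀⟩ := hDesc.1 K k 3 f₀ σ (by rw [hf₀]; exact hOf)
  have hpr₀ := hPresS K P₀ f₀ σ₀ hirr₀ hσ₀ hinv₀
  have hno₀ : NoR (σ₀ ^ (N * N')) P₀ := hNoDesc K k P₀ (σ₀ ^ (N * N')) (σ ^ (N * N')) hmon₀
    (cmp_pow hc₀ _) (by rw [hP₀]; exact hnoM)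
  obtain ⟨H, G, hHm, hHi, hG, hcore⟩ := hCore K P₀ f₀ σ₀ (N * N') hirr₀ hmon₀ hσ₀ hpr₀ hM hno₀
  obtain ⟨j, hj1, hj2⟩ := hHit K (fg_closure S) 2 H G hHm hHi hG cK (p * p')
    (Nat.mul_pos hp.pos hp'.pos)
  set t : Fin 2 → K := fun i => cK i + ((p * p' : ℕ) : K) * (j i : K) with ht
  obtain ⟨hirrt, hcore'⟩ := hcore t hj1 hj2
  set tk : Fin 2 → k := fun i => algebraMap K k (t i) with htk
  have htki : ∀ i, tk i = c i + ((p * p' : ℕ) : k) * ((j i : ℤ) : k) := by
    intro i
    rw [htk, ht]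
    simp only [map_add, map_mul, map_natCast, map_intCast]
    rfl
  have hLV : ∀ i : Fin 2, Lies V (tk i) (a i.succ) := fun i => by
    rw [htki]
    exact lies_add V p hch _ _ (hcV i) _ (dvd_mul_right _ _) _
  have hLV' : ∀ i : Fin 2, Lies V' (tk i) (a' i.succ) := fun i => by
    rw [htki]
    exact lies_add V' p' hch' _ _ (hcV' i) _ (dvd_mul_left _ _) _
  obtain ⟨z, hzV, hz⟩ := hroot tk hLV
  obtain ⟨z', hzV', hz'⟩ := hroot' tk hLV'
  obtain ⟨x, hx0, hxo, hxB, hxCl⟩ := hbox (Fin.cons z tk) (fun i => Fin.cases hzV hLV i) hz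
  obtain ⟨x', hx0', hxo', -, hxCl'⟩ := hbox' (Fin.cons z' tk) (fun i => Fin.cases hzV' hLV' i) hz'
  -- the field generated by the root
  set q : Polynomial K := (MvPolynomial.finSuccEquiv K 2 P₀).map (MvPolynomial.eval t) with hq
  have : Fact (Irreducible q) := ⟨hirrt⟩
  have : Module.Finite K (AdjoinRoot q) := (AdjoinRoot.powerBasis hirrt.ne_zero).finite
  have hzq : Polynomial.eval₂ ((Algebra.ofId K k : K →ₐ[K] k) : K →+* k) z q = 0 := by
    have e := eval_cons (k := k) P₀ t z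
    rw [hP₀] at e
    exact e.symm.trans hz
  have hzq' : Polynomial.eval₂ ((Algebra.ofId K k : K →ₐ[K] k) : K →+* k) z' q = 0 := by
    have e := eval_cons (k := k) P₀ t z'
    rw [hP₀] at e
    exact e.symm.trans hz'
  set ι : AdjoinRoot q →ₐ[K] k := AdjoinRoot.liftAlgHom q (Algebra.ofId K k) z hzq with hι
  set ι' : AdjoinRoot q →ₐ[K] k := AdjoinRoot.liftAlgHom q (Algebra.ofId K k) z' hzq' with hι'
  have hιr : ι (AdjoinRoot.root q) = z := AdjoinRoot.liftAlgHom_root _ _ _ _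
  have hιr' : ι' (AdjoinRoot.root q) = z' := AdjoinRoot.liftAlgHom_root _ _ _ _
  obtain ⟨y, hy0, hyo, hyx⟩ := hConj.1 K (AdjoinRoot q) k ι 3 f₀ x (pt t (AdjoinRoot.root q))
    (by rw [hf₀]; exact hxo) (by
      intro i
      rw [hx0]
      refine Fin.cases ?_ (fun i => ?_) i
      · exact hιr.symm
      · exact (ι.commutes (t i)).symm)
  obtain ⟨y', hy0', hyo', hyx'⟩ := hConj.1 K (AdjoinRoot q) k ι' 3 f₀ x'
    (pt t (AdjoinRoot.root q)) (by rw [hf₀]; exact hxo') (by
      intro i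
      rw [hx0']
      refine Fin.cases ?_ (fun i => ?_) i
      · exact hιr'.symm
      · exact (ι'.commutes (t i)).symm)
  have hyy : y' = y := (f₀.map (algebraMap K (AdjoinRoot q))).orb_unique y' y hyo' hyo
    (hy0'.trans hy0.symm)
  rw [hyy] at hyx'
  have hCl : Pool.Agent.ZDO.ClN N p y := hConj.2 (AdjoinRoot q) k ι.toRingHom 3 x y N p hyx hxCl
  have hCl' : Pool.Agent.ZDO.ClN N' p' y :=
    hConj.2 (AdjoinRoot q) k ι'.toRingHom 3 x' y N' p' hyx' hxCl'
  have hmm : (MvPolynomial.map (ι : AdjoinRoot q →+* k))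
      (MvPolynomial.map (algebraMap K (AdjoinRoot q)) P₀) = P := by
    rw [MvPolynomial.map_map]
    have e : (ι : AdjoinRoot q →+* k).comp (algebraMap K (AdjoinRoot q)) = algebraMap K k :=
      ι.comp_algebraMap
    rw [e, hP₀]
  have hirr' : Irreducible (MvPolynomial.map (algebraMap K (AdjoinRoot q)) P₀) := by
    let _ : Algebra (AdjoinRoot q) k := (ι : AdjoinRoot q →+* k).toAlgebra
    apply hInvD.2.1 (AdjoinRoot q) k 3
    have e : algebraMap (AdjoinRoot q) k = (ι : AdjoinRoot q →+* k) := rfl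
    rw [e, hmm]
    exact hP
  have hev : ∀ (m : ℕ) (G : Pl 3 K), MvPolynomial.eval (x m) (MvPolynomial.map (algebraMap K k) G) =
      ι (MvPolynomial.aeval (y m) G) := fun m G => eval_pt ι (y m) (x m) (hyx m) G
  have hjm : MvPolynomial.map (algebraMap K k) (jac f₀) = jac f := by
    rw [← hf₀]
    exact (Pool.Agent.ZDO.map_Jc f₀ (algebraMap K k)).symm
  have hvan := hcore' (AdjoinRoot q) (AdjoinRoot.root q)
    (IntermediateField.adjoin_root_eq_top q) hirr' y N N' p p' hy0 hyo (fun m => by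
      constructor
      · have e := hev m P₀
        rw [hP₀, (hxB m).1] at e
        exact (map_eq_zero_iff ι ι.injective).1 e.symm
      · intro h0
        have e := hev m (jac f₀)
        rw [h0, map_zero, hjm] at e
        apply (hxB m).2
        rw [map_mul, e, mul_zero]) hp hp' hne rfl hCl hCl'
  refine ⟨x, hxo, fun m => ⟨(hxB m).1, fun h0 => (hxB m).2 (by rw [map_mul, h0, zero_mul])⟩, ?_⟩
  intro G' hG'
  by_contra hcon
  push Not at hcon
  apply hG'
  have hfin := hDescS (AdjoinRoot q) k ι.toRingHom 3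
    (MvPolynomial.map (algebraMap K (AdjoinRoot q)) P₀) y (N * N') hvan G' (fun s => by
      have e : (fun i => ι.toRingHom (y (N * N' * s) i)) = x (N * N' * s) :=
        funext fun i => (hyx (N * N' * s) i).symm
      rw [e]
      exact hcon _)
  have e2 : MvPolynomial.map ι.toRingHom (MvPolynomial.map (algebraMap K (AdjoinRoot q)) P₀) = P :=
    hmm
  rw [e2] at hfin
  exact hfin

end Pool.Agent.Lib.MP_16285c_agS
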