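import Pool.Agent.Lib.MP_16285c_agS.Top.Spec
import Pool.Agent.ZDO.Clo

/-!
# Dense orbits on surfaces: descent of the model to a smaller field
-/

set_option autoImplicit false

namespace Pool.Agent.Lib.MP_16285c_agS.TopInvDM

open Pool.Agent.Lib.MP_16285c_ag Pool.Agent.Lib.MP_16285c_agN

variable {K k : Type} [Field K] [Field k] [Algebra K k]

theorem map_wX (P : Pl 3 K) (f : RM K 3) (i j : Fin 3) :
    Hrx.wX (MvPolynomial.map (algebraMap K k) P) (f.map (algebraMap K k)) i j =
      MvPolynomial.map (algebraMap K k) (Hrx.wX P f i j) := by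
  unfold Hrx.wX
  rw [Pool.Agent.ZDO.map_Wd, Pool.Agent.ZDO.map_Wd, MvPolynomial.pderiv_map,
    MvPolynomial.pderiv_map, map_sub, map_mul, map_mul]

theorem map_jX (P : Pl 3 K) (f : RM K 3) :
    Hrx.jX (MvPolynomial.map (algebraMap K k) P) (f.map (algebraMap K k)) =
      MvPolynomial.map (algebraMap K k) (Hrx.jX P f) := by
  unfold Hrx.jX
  rw [map_wX, map_wX, map_wX, map_wX, map_sub, map_mul, map_mul]

theorem comp_X {n : ℕ} (f : RM K n) (i : Fin n) :
    f.comp (MvPolynomial.X i) = fr (f.num i) / fr (f.den i) := by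
  unfold RM.comp
  rw [MvPolynomial.aeval_X]

theorem comp_C {n : ℕ} (f : RM K n) (c : K) :
    f.comp (MvPolynomial.C c) = algebraMap K (RF n K) c := by
  unfold RM.comp
  rw [MvPolynomial.aeval_C]

theorem bc_comp {n : ℕ} (f : RM K n) (G : Pl n K) :
    bc n K k (f.comp G) =
      (f.map (algebraMap K k)).comp (MvPolynomial.map (algebraMap K k) G) := by
  have h : (bc n K k).comp (f.comp : Pl n K →+* RF n K) =
      ((f.map (algebraMap K k)).comp : Pl n k →+* RF n k).comp
        (MvPolynomial.map (algebraMap K k)) := by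
    apply MvPolynomial.ringHom_ext
    · intro c
      change bc n K k (f.comp (MvPolynomial.C c)) =
        (f.map (algebraMap K k)).comp (MvPolynomial.map (algebraMap K k) (MvPolynomial.C c))
      rw [comp_C, bc_algebraMap, MvPolynomial.map_C, comp_C]
    · intro i
      change bc n K k (f.comp (MvPolynomial.X i)) =
        (f.map (algebraMap K k)).comp (MvPolynomial.map (algebraMap K k) (MvPolynomial.X i))
      rw [comp_X, map_div₀, bc_fr, bc_fr, MvPolynomial.map_X, comp_X]
      rfl
  exact congrArg (fun u : Pl n K →+* RF n k => u G) h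

theorem isUnit_of_map {n : ℕ} {A : Pl n K}
    (h : IsUnit (MvPolynomial.map (algebraMap K k) A)) : IsUnit A := by
  rw [MvPolynomial.isUnit_iff] at h ⊢
  refine ⟨?_, fun i hi => ?_⟩
  · have h1 := h.1
    rw [MvPolynomial.coeff_map] at h1
    refine isUnit_iff_ne_zero.2 fun h0 => ?_
    rw [h0, map_zero] at h1
    exact not_isUnit_zero h1
  · have h1 := h.2 i hi
    rw [MvPolynomial.coeff_map] at h1
    have h2 : algebraMap K k (MvPolynomial.coeff i A) = 0 := h1.eq_zero
    have h3 : MvPolynomial.coeff i A = 0 :=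
      (map_eq_zero_iff _ (algebraMap K k).injective).1 h2
    rw [h3]
    exact IsNilpotent.zero

theorem irr {n : ℕ} {P : Pl n K} (h : Irreducible (MvPolynomial.map (algebraMap K k) P)) :
    Irreducible P := by
  refine ⟨fun hu => h.not_isUnit (hu.map (MvPolynomial.map (algebraMap K k))), ?_⟩
  intro A B hAB
  have h1 : MvPolynomial.map (algebraMap K k) P =
      MvPolynomial.map (algebraMap K k) A * MvPolynomial.map (algebraMap K k) B := by
    rw [hAB, map_mul]
  rcases h.isUnit_or_isUnit h1 with h2 | h2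
  · exact Or.inl (isUnit_of_map h2)
  · exact Or.inr (isUnit_of_map h2)

theorem fse (P : Pl 3 K) :
    MvPolynomial.finSuccEquiv k 2 (MvPolynomial.map (algebraMap K k) P) =
      (MvPolynomial.finSuccEquiv K 2 P).map (MvPolynomial.map (algebraMap K k)) := by
  have h1 := Pool.Agent.Lib.MP_16285c_ag.map_up (algebraMap K k)
    (MvPolynomial.finSuccEquiv K 2 P)
  unfold Pool.Agent.Lib.MP_16285c_ag.up at h1
  rw [AlgEquiv.symm_apply_apply] at h1
  rw [h1, AlgEquiv.apply_symm_apply]

end Pool.Agent.Lib.MP_16285c_agS.TopInvDM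

namespace Pool.Agent.Lib.MP_16285c_agS

open Pool.Agent.Lib.MP_16285c_ag Pool.Agent.Lib.MP_16285c_agN

open TopInvDM in
theorem tInvD : StmtInvD := by
  refine ⟨?_, ?_, ?_⟩
  · intro K k _ _ _ P E N f h1 h2 h3 h4 h5
    refine ⟨fun i h => h1 i ?_, fun h => h2 ?_, fun h => h3 ?_, E, N, fun h => h4 ?_, ?_⟩
    · exact map_dvd (MvPolynomial.map (algebraMap K k)) h
    · have h6 := map_dvd (MvPolynomial.map (algebraMap K k)) h
      have h7 : jac (f.map (algebraMap K k)) = MvPolynomial.map (algebraMap K k) (jac f) :=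
        Pool.Agent.ZDO.map_Jc f (algebraMap K k)
      rw [h7]
      exact h6
    · rw [map_jX]
      exact map_dvd (MvPolynomial.map (algebraMap K k)) h
    · exact map_dvd (MvPolynomial.map (algebraMap K k)) h
    · apply bc_injective (n := 3) (K := K) (L := k)
      rw [map_mul (bc 3 K k), bc_fr, bc_fr, bc_comp, map_mul (MvPolynomial.map (algebraMap K k))]
      exact h5
  · intro K k _ _ _ n P h
    exact irr h
  · intro K k _ _ _ P
    unfold MonZ
    rw [fse]
    exact (Function.Injective.monic_map_iff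
      (MvPolynomial.map_injective _ (algebraMap K k).injective)).symm

end Pool.Agent.Lib.MP_16285c_agS
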