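import Pool.Agent.Lib.MP_16285c_agS.Top.Spec

/-!
# Irreducibility over a smaller field (proof of `StmtIrrK`)
-/

set_option autoImplicit false

namespace Pool.Agent.Lib.MP_16285c_agS

open Pool.Agent.Lib.MP_16285c_ag Pool.Agent.Lib.MP_16285c_agN

namespace TopIrrKM

/-- Evaluation after the change of scalars. -/
theorem eval_comp {K K' : Type} [Field K] [Field K'] [Algebra K K'] {n : ℕ} (x : Fin n → K') :
    (MvPolynomial.eval x).comp (MvPolynomial.map (algebraMap K K') : Pl n K →+* Pl n K') =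
      ((MvPolynomial.aeval x : Pl n K →ₐ[K] K') : Pl n K →+* K') := by
  refine MvPolynomial.ringHom_ext (fun r => ?_) fun i => ?_
  · simp
  · simp

/-- The map of the fields of fractions. -/
theorem exists_j {K K' : Type} [Field K] [Field K'] [Algebra K K'] {n : ℕ} (𝔭' : Ideal (Pl n K'))
    [𝔭'.IsPrime] (𝔭 : Ideal (Pl n K)) [𝔭.IsPrime]
    (hp : 𝔭 = 𝔭'.comap (MvPolynomial.map (algebraMap K K')))
    (L L' : Type) [Field L] [Algebra (CR 𝔭) L] [IsFractionRing (CR 𝔭) L] [Field L']
    [Algebra (CR 𝔭') L'] [IsFractionRing (CR 𝔭') L'] :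
    ∃ j : L →+* L', j.comp (toF 𝔭 L) =
      (toF 𝔭' L').comp (MvPolynomial.map (algebraMap K K') : Pl n K →+* Pl n K') := by
  subst hp
  have hψ : Function.Injective (Ideal.quotientMap 𝔭'
      (MvPolynomial.map (algebraMap K K') : Pl n K →+* Pl n K') le_rfl) :=
    Ideal.quotientMap_injective
  have hL : Function.Injective (algebraMap (CR 𝔭') L') := IsFractionRing.injective (CR 𝔭') L'
  have hg : Function.Injective ((algebraMap (CR 𝔭') L').comp (Ideal.quotientMap 𝔭'
      (MvPolynomial.map (algebraMap K K') : Pl n K →+* Pl n K') le_rfl)) := by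
    rw [RingHom.coe_comp]
    exact hL.comp hψ
  refine ⟨IsFractionRing.lift hg, ?_⟩
  refine RingHom.ext fun G => ?_
  rw [RingHom.comp_apply, RingHom.comp_apply, RingHom.comp_apply, IsFractionRing.lift_algebraMap,
    RingHom.comp_apply, Ideal.quotientMap_mk, RingHom.comp_apply]

end TopIrrKM

open TopIrrKM in
theorem tIrrK (h : StmtIrr) : StmtIrrK := by
  intro K K' _ _ _ _ n 𝔭' _ x hx hg 𝔭 _ hp L _ _ _ F hF hirr
  obtain ⟨j, hj⟩ := exists_j 𝔭' 𝔭 hp L (FractionRing (CR 𝔭'))
  have h1 : Irreducible ((F.map (MvPolynomial.map (algebraMap K K') : Pl n K →+* Pl n K')).map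
      (MvPolynomial.eval x)) := by
    rw [Polynomial.map_map, eval_comp]
    exact hirr
  have h2 := h K' n 𝔭' x hx hg (FractionRing (CR 𝔭'))
    (F.map (MvPolynomial.map (algebraMap K K') : Pl n K →+* Pl n K')) (hF.map _) h1
  refine Polynomial.Monic.irreducible_of_irreducible_map j _ (hF.map _) ?_
  rw [Polynomial.map_map, hj, ← Polynomial.map_map]
  exact h2

end Pool.Agent.Lib.MP_16285c_agS
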