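import Pool.Agent.Lib.MP_16285c_agS.Top.Spec
import Pool.Agent.Lib.MP_16285c_agN.Low

/-!
# Dense orbits on surfaces: lower bound for the residue degree
-/

set_option autoImplicit false

namespace Pool.Agent.Lib.MP_16285c_agS

open Pool.Agent.Lib.MP_16285c_ag Pool.Agent.Lib.MP_16285c_agN

namespace TopLowSM

/-- Clearing denominators. -/
theorem clear {R A : Type} [CommRing R] [Field A] (π : R →+* A) (r : A →+* A)
    (F : Polynomial R) (D N : R → R) (u w : R) (hw : π w ≠ 0)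
    (h : ∀ c, π (N c) = π (D c) * r (π c)) :
    π (∑ i ∈ Finset.range (F.natDegree + 1),
      (∏ j ∈ (Finset.range (F.natDegree + 1)).erase i, D (F.coeff j)) * N (F.coeff i) *
        u ^ i * w ^ (F.natDegree - i)) =
      (∏ j ∈ Finset.range (F.natDegree + 1), π (D (F.coeff j))) * π w ^ F.natDegree *
        F.eval₂ (r.comp π) (π u / π w) := by
  rw [Polynomial.eval₂_eq_sum_range, map_sum, Finset.mul_sum]
  refine Finset.sum_congr rfl fun i hi => ?_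
  rw [map_mul, map_mul, map_mul, map_prod, map_pow, map_pow, h, RingHom.comp_apply, div_pow,
    ← Finset.prod_erase_mul _ _ hi]
  have h1 : π w ^ F.natDegree = π w ^ (F.natDegree - i) * π w ^ i := by
    rw [← pow_add, Nat.sub_add_cancel (Nat.lt_succ_iff.1 (Finset.mem_range.1 hi))]
  rw [h1]
  field_simp

open LowM in
/-- Representatives restrict to representatives. -/
theorem rep {n : ℕ} {K : Type} [Field K] (σ' : RF n K →ₐ[K] RF n K) (𝔯 : Ideal (Pl n K))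
    [𝔯.IsPrime] (A : Type) [Field A] [Algebra (CR 𝔯) A] [IsFractionRing (CR 𝔯) A] [Algebra K A]
    (r : A →ₐ[K] A) (hr : Rst σ' 𝔯 A r) (c D N : Pl n K) (hD : D ∉ 𝔯)
    (hN : fr N = fr D * σ' (fr c)) :
    toF 𝔯 A N = toF 𝔯 A D * (r : A →+* A) (toF 𝔯 A c) := by
  have h1 : Rsd 𝔯 A (σ' (fr c)) (r (toF 𝔯 A c)) := hr _ _ (res_fr c)
  have hne : toF 𝔯 A D ≠ 0 := cl_ne hD
  have h2 : Rsd 𝔯 A (σ' (fr c)) (toF 𝔯 A N / toF 𝔯 A D) :=
    ⟨N, D, hD, by rw [hN, mul_comm], div_mul_cancel₀ _ hne⟩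
  have h3 : r (toF 𝔯 A c) = toF 𝔯 A N / toF 𝔯 A D := uniq h1 h2
  have h4 : (r : A →+* A) (toF 𝔯 A c) = toF 𝔯 A N / toF 𝔯 A D := h3
  rw [h4, mul_div_cancel₀ _ hne]

end TopLowSM

open TopLowSM LowM in
theorem tLowS : StmtLowS := by
  intro K _ n 𝔮 𝔭 _ _ hle σ' hP E _ _ _ _ _ ρ hρ L _ _ _ _ _ ρb hρb hfin F u w hF hirr hw h0
  choose D N hD hN _ using hP
  have hDq : ∀ c, D c ∉ 𝔮 := fun c h => hD c (hle h)
  have hwq : w ∉ 𝔮 := fun h => hw (hle h)
  have h1 := clear (toF 𝔮 E) (ρ : E →+* E) F D N u w (cl_ne hwq)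
    (fun c => rep σ' 𝔮 E ρ hρ c (D c) (N c) (hDq c) (hN c))
  have h2 := clear (toF 𝔭 L) (ρb : L →+* L) F D N u w (cl_ne hw)
    (fun c => rep σ' 𝔭 L ρb hρb c (D c) (N c) (hD c) (hN c))
  rw [h0, mul_zero] at h1
  have h3 : (∑ i ∈ Finset.range (F.natDegree + 1),
      (∏ j ∈ (Finset.range (F.natDegree + 1)).erase i, D (F.coeff j)) * N (F.coeff i) *
        u ^ i * w ^ (F.natDegree - i)) ∈ 𝔮 := by
    by_contra hne
    exact cl_ne (L := E) hne h1
  have h4 : toF 𝔭 L (∑ i ∈ Finset.range (F.natDegree + 1),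
      (∏ j ∈ (Finset.range (F.natDegree + 1)).erase i, D (F.coeff j)) * N (F.coeff i) *
        u ^ i * w ^ (F.natDegree - i)) = 0 := by
    rw [RingHom.comp_apply, Ideal.Quotient.eq_zero_iff_mem.2 (hle h3), map_zero]
  rw [h4] at h2
  have h5 : F.eval₂ ((ρb : L →+* L).comp (toF 𝔭 L)) (toF 𝔭 L u / toF 𝔭 L w) = 0 := by
    rcases mul_eq_zero.1 h2.symm with h6 | h6
    · rcases mul_eq_zero.1 h6 with h7 | h7
      · obtain ⟨j, -, hj⟩ := Finset.prod_eq_zero_iff.1 h7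
        exact absurd hj (cl_ne (hD _))
      · exact absurd h7 (pow_ne_zero _ (cl_ne hw))
    · exact h6
  have h6 : (F.map (toF 𝔭 L)).eval₂ (ρb : L →+* L) (toF 𝔭 L u / toF 𝔭 L w) = 0 := by
    rw [Polynomial.eval₂_map]
    exact h5
  have h7 := degree_le ρb hfin (F.map (toF 𝔭 L)) (hF.map _) hirr _ h6
  rwa [hF.natDegree_map] at h7

end Pool.Agent.Lib.MP_16285c_agS
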