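import Pool.Agent.Lib.MP_16285c_agS.Top.Spec

/-!
# Invariant functions and change of fields
-/

set_option autoImplicit false

namespace Pool.Agent.Lib.MP_16285c_agS

open Pool.Agent.Lib.MP_16285c_ag Pool.Agent.Lib.MP_16285c_agN

namespace TopNoDescM

section

variable {K k : Type} [Field K] [Field k] [Algebra K k]

/-- The change of fields for the coefficients. -/
noncomputable abbrev ps (K k : Type) [Field K] [Field k] [Algebra K k] :
    MvPolynomial (Fin 2) K →+* MvPolynomial (Fin 2) k := MvPolynomial.map (algebraMap K k)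

theorem ps_inj : Function.Injective (ps K k) :=
  MvPolynomial.map_injective _ (algebraMap K k).injective

theorem fin_map (G : Pl 3 K) :
    MvPolynomial.finSuccEquiv k 2 (MvPolynomial.map (algebraMap K k) G) =
      (MvPolynomial.finSuccEquiv K 2 G).map (ps K k) := by
  induction G using MvPolynomial.induction_on with
  | C a =>
    have h1 : MvPolynomial.finSuccEquiv K 2 (MvPolynomial.C a) =
        Polynomial.C (MvPolynomial.C a) := (MvPolynomial.finSuccEquiv K 2).commutes a
    have h2 : MvPolynomial.finSuccEquiv k 2 (MvPolynomial.C (algebraMap K k a)) =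
        Polynomial.C (MvPolynomial.C (algebraMap K k a)) :=
      (MvPolynomial.finSuccEquiv k 2).commutes (algebraMap K k a)
    rw [MvPolynomial.map_C, h1, h2, Polynomial.map_C, MvPolynomial.map_C]
  | add p q hp hq => rw [map_add, map_add, map_add, hp, hq, Polynomial.map_add]
  | mul_X p i hp =>
    rw [map_mul, map_mul, map_mul, hp, Polynomial.map_mul, MvPolynomial.map_X]
    congr 1
    refine Fin.cases ?_ (fun i => ?_) i
    · rw [MvPolynomial.finSuccEquiv_X_zero, MvPolynomial.finSuccEquiv_X_zero, Polynomial.map_X]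
    · rw [MvPolynomial.finSuccEquiv_X_succ, MvPolynomial.finSuccEquiv_X_succ, Polynomial.map_C,
        MvPolynomial.map_X]

theorem fin_dvd {K : Type} [Field K] (P G : Pl 3 K) :
    MvPolynomial.finSuccEquiv K 2 P ∣ MvPolynomial.finSuccEquiv K 2 G ↔ P ∣ G :=
  map_dvd_iff (MvPolynomial.finSuccEquiv K 2)

theorem dvd_map (P G : Pl 3 K) (hP : MonZ P) :
    MvPolynomial.map (algebraMap K k) P ∣ MvPolynomial.map (algebraMap K k) G ↔ P ∣ G := by
  rw [← fin_dvd, fin_map, fin_map, Polynomial.map_dvd_map _ ps_inj hP, fin_dvd]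

/-- Linear dependence modulo `P` descends. -/
theorem descend (P A B : Pl 3 K) (hP : MonZ P) (hB : ¬ P ∣ B) (c : k)
    (h : MvPolynomial.map (algebraMap K k) P ∣ MvPolynomial.map (algebraMap K k) A -
      MvPolynomial.C c * MvPolynomial.map (algebraMap K k) B) :
    ∃ c₀ : K, P ∣ A - MvPolynomial.C c₀ * B := by
  set P' := MvPolynomial.finSuccEquiv K 2 P with hP'
  set A' := MvPolynomial.finSuccEquiv K 2 A with hA'
  set B' := MvPolynomial.finSuccEquiv K 2 B with hB'
  have hPm : P'.Monic := hP
  have hC : ∀ (F : Type) [Field F] (a : F), MvPolynomial.finSuccEquiv F 2 (MvPolynomial.C a) =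
      Polynomial.C (MvPolynomial.C a) := fun F _ a => (MvPolynomial.finSuccEquiv F 2).commutes a
  have h1 : P'.map (ps K k) ∣ A'.map (ps K k) -
      Polynomial.C (MvPolynomial.C c) * B'.map (ps K k) := by
    rw [← fin_dvd, map_sub, map_mul, fin_map, fin_map, fin_map, hC] at h
    exact h
  have hPm' : (P'.map (ps K k)).Monic := hPm.map _
  have h2 : (A' %ₘ P').map (ps K k) =
      Polynomial.C (MvPolynomial.C c) * (B' %ₘ P').map (ps K k) := by
    have h3 := (Polynomial.modByMonic_eq_zero_iff_dvd hPm').2 h1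
    rw [Polynomial.sub_modByMonic, ← Polynomial.smul_eq_C_mul, Polynomial.smul_modByMonic,
      ← Polynomial.map_modByMonic _ hPm, ← Polynomial.map_modByMonic _ hPm,
      Polynomial.smul_eq_C_mul] at h3
    exact sub_eq_zero.1 h3
  have hRB : B' %ₘ P' ≠ 0 := by
    intro h0
    exact hB ((fin_dvd P B).1 ((Polynomial.modByMonic_eq_zero_iff_dvd hPm).1 h0))
  obtain ⟨m, hm⟩ : ∃ m, (B' %ₘ P').coeff m ≠ 0 := by
    by_contra h0
    push Not at h0
    exact hRB (Polynomial.ext h0)
  obtain ⟨d, hd⟩ := MvPolynomial.ne_zero_iff.1 hm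
  have h4 : algebraMap K k (MvPolynomial.coeff d ((A' %ₘ P').coeff m)) =
      c * algebraMap K k (MvPolynomial.coeff d ((B' %ₘ P').coeff m)) := by
    have h5 := congrArg (fun Q : Polynomial (MvPolynomial (Fin 2) k) =>
      MvPolynomial.coeff d (Q.coeff m)) h2
    simpa only [Polynomial.coeff_C_mul, Polynomial.coeff_map, MvPolynomial.coeff_C_mul,
      MvPolynomial.coeff_map] using h5
  set b := MvPolynomial.coeff d ((B' %ₘ P').coeff m) with hb
  set a := MvPolynomial.coeff d ((A' %ₘ P').coeff m) with ha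
  have hb' : algebraMap K k b ≠ 0 := by
    rw [Ne, map_eq_zero]
    exact hd
  have hc : c = algebraMap K k (a / b) := by
    rw [map_div₀, eq_div_iff hb', h4]
  refine ⟨a / b, ?_⟩
  rw [← dvd_map (k := k) _ _ hP, map_sub, map_mul, MvPolynomial.map_C, ← hc]
  exact h

end

end TopNoDescM

open TopNoDescM in
/-- (NoDesc) -/
theorem tNoDesc : StmtNoDesc := by
  intro K k _ _ _ P σK σ hP hσ hno A B hB hEN
  obtain ⟨E, N, hE, hEq⟩ := hEN
  obtain ⟨c, hc⟩ := hno (MvPolynomial.map (algebraMap K k) A) (MvPolynomial.map (algebraMap K k) B)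
    (fun h => hB ((dvd_map P B hP).1 h)) ⟨MvPolynomial.map (algebraMap K k) E,
      MvPolynomial.map (algebraMap K k) N, fun h => hE ((dvd_map P E hP).1 h), by
        have h1 := congrArg (bc 3 K k) hEq
        rw [bc_fr, map_mul, map_mul, map_sub, map_mul, map_mul, bc_fr, bc_fr, bc_fr,
          ← cmp_apply hσ, ← cmp_apply hσ, bc_fr, bc_fr] at h1
        exact h1⟩
  exact descend P A B hP hB c hc

end Pool.Agent.Lib.MP_16285c_agS
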