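import Pool.Agent.Lib.MP_16285c_agS.Top.Spec

/-!
# No invariant functions for the powers
-/

set_option autoImplicit false

namespace Pool.Agent.Lib.MP_16285c_agS

open Pool.Agent.Lib.MP_16285c_ag Pool.Agent.Lib.MP_16285c_agN

theorem tNoPow : StmtNoPowE := by
  intro k L _ _ _ _ ρ hρ M hM h hh
  obtain ⟨F, hF⟩ : ∃ F : Polynomial L, F = ∏ i ∈ Finset.range M,
      (Polynomial.X - Polynomial.C ((ρ ^ i) h)) := ⟨_, rfl⟩
  have hmap : F.map (ρ : L →+* L) = F := by
    have h1 : F.map (ρ : L →+* L) = ∏ i ∈ Finset.range M,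
        (Polynomial.X - Polynomial.C ((ρ ^ (i + 1)) h)) := by
      rw [hF, Polynomial.map_prod]
      refine Finset.prod_congr rfl fun i _ => ?_
      rw [Polynomial.map_sub, Polynomial.map_X, Polynomial.map_C, pow_succ', AlgHom.mul_apply]
      rfl
    obtain ⟨N, rfl⟩ : ∃ N, M = N + 1 := ⟨M - 1, by omega⟩
    rw [h1, Finset.prod_range_succ, hh, hF, Finset.prod_range_succ']
    rfl
  have hmonic : F.Monic := by
    rw [hF]
    exact Polynomial.monic_prod_of_monic _ _ fun i _ => Polynomial.monic_X_sub_C _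
  have hcoef : ∀ i, ∃ c : k, F.coeff i = algebraMap k L c := by
    intro i
    apply hρ
    have h1 := congrArg (fun p : Polynomial L => p.coeff i) hmap
    simp only [Polynomial.coeff_map] at h1
    exact h1
  have hlift : F ∈ Polynomial.lifts (algebraMap k L) := by
    rw [Polynomial.lifts_iff_coeff_lifts]
    intro i
    obtain ⟨c, hc⟩ := hcoef i
    exact ⟨c, hc.symm⟩
  obtain ⟨G, hG, -, hGm⟩ := Polynomial.lifts_and_degree_eq_and_monic hlift hmonic
  have hroot : F.eval h = 0 := by
    rw [hF, Polynomial.eval_prod]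
    apply Finset.prod_eq_zero (Finset.mem_range.2 (show 0 < M by omega))
    rw [pow_zero, Polynomial.eval_sub, Polynomial.eval_X, Polynomial.eval_C]
    exact sub_self h
  have hint : IsIntegral k h := by
    refine ⟨G, hGm, ?_⟩
    rw [Polynomial.eval₂_eq_eval_map, hG]
    exact hroot
  have h1 := IsAlgClosed.degree_eq_one_of_irreducible k (minpoly.irreducible hint)
  obtain ⟨c, hc⟩ := minpoly.mem_range_of_degree_eq_one k h h1
  exact ⟨c, hc.symm⟩

end Pool.Agent.Lib.MP_16285c_agS
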