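import Pool.Agent.Lib.MP_16285c_agS.Top.Spec

/-!
# Dense orbits on surfaces: a relation with a polynomial which does not involve `X 0`
-/

set_option autoImplicit false

namespace Pool.Agent.Lib.MP_16285c_agS.TopNrmM

open Pool.Agent.Lib.MP_16285c_ag Pool.Agent.Lib.MP_16285c_agN

theorem bez (S Q : Type) [CommRing S] [IsDomain S] [IsIntegrallyClosed S] [Field Q] [Algebra S Q]
    [IsFractionRing S Q] (p g : Polynomial S) (hp : p.Monic) (hi : Irreducible p) (hg : ¬ p ∣ g) :
    ∃ (r : S) (a b : Polynomial S), r ≠ 0 ∧ Polynomial.C r = a * p + b * g := by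
  have hinj : Function.Injective (algebraMap S Q) := IsFractionRing.injective S Q
  have h1 : Irreducible (p.map (algebraMap S Q)) :=
    (Polynomial.Monic.irreducible_iff_irreducible_map_fraction_map hp).1 hi
  have h2 : ¬ p.map (algebraMap S Q) ∣ g.map (algebraMap S Q) := fun h =>
    hg ((Polynomial.map_dvd_map _ hinj hp).1 h)
  obtain ⟨a, b, hab⟩ := (h1.coprime_iff_not_dvd).2 h2
  obtain ⟨c, hc⟩ := IsLocalization.integerNormalization_map_to_map (nonZeroDivisors S) a
  obtain ⟨d, hd⟩ := IsLocalization.integerNormalization_map_to_map (nonZeroDivisors S) b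
  refine ⟨(c : S) * (d : S),
    Polynomial.C (d : S) * IsLocalization.integerNormalization (nonZeroDivisors S) a,
    Polynomial.C (c : S) * IsLocalization.integerNormalization (nonZeroDivisors S) b,
    mul_ne_zero (nonZeroDivisors.ne_zero c.2) (nonZeroDivisors.ne_zero d.2), ?_⟩
  apply Polynomial.map_injective (algebraMap S Q) hinj
  have hc' : (IsLocalization.integerNormalization (nonZeroDivisors S) a).map (algebraMap S Q) =
      Polynomial.C (algebraMap S Q (c : S)) * a := by
    rw [hc, ← algebraMap_smul Q (c : S) a, Polynomial.smul_eq_C_mul]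
  have hd' : (IsLocalization.integerNormalization (nonZeroDivisors S) b).map (algebraMap S Q) =
      Polynomial.C (algebraMap S Q (d : S)) * b := by
    rw [hd, ← algebraMap_smul Q (d : S) b, Polynomial.smul_eq_C_mul]
  rw [Polynomial.map_add, Polynomial.map_mul, Polynomial.map_mul, Polynomial.map_mul,
    Polynomial.map_mul, hc', hd', Polynomial.map_C, Polynomial.map_C, Polynomial.map_C, map_mul,
    Polynomial.C_mul]
  linear_combination (-(Polynomial.C (algebraMap S Q (c : S)) *
    Polynomial.C (algebraMap S Q (d : S)))) * hab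

end Pool.Agent.Lib.MP_16285c_agS.TopNrmM

namespace Pool.Agent.Lib.MP_16285c_agS

open Pool.Agent.Lib.MP_16285c_ag Pool.Agent.Lib.MP_16285c_agN

theorem tNrm : StmtNrm := by
  intro K _ P hP hM G hG
  have hi : Irreducible (MvPolynomial.finSuccEquiv K 2 P) :=
    (MulEquiv.irreducible_iff (MvPolynomial.finSuccEquiv K 2)).2 hP
  have hg : ¬ MvPolynomial.finSuccEquiv K 2 P ∣ MvPolynomial.finSuccEquiv K 2 G := by
    intro h
    exact hG ((map_dvd_iff (MvPolynomial.finSuccEquiv K 2)).1 h)
  obtain ⟨r, a, b, hr, h⟩ := TopNrmM.bez (MvPolynomial (Fin 2) K) (RF 2 K) _ _ hM hi hg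
  refine ⟨r, (MvPolynomial.finSuccEquiv K 2).symm a, (MvPolynomial.finSuccEquiv K 2).symm b, hr, ?_⟩
  apply (MvPolynomial.finSuccEquiv K 2).injective
  rw [map_add, map_mul, map_mul, AlgEquiv.apply_symm_apply, AlgEquiv.apply_symm_apply, ← h]
  have h2 : up K r = (MvPolynomial.finSuccEquiv K 2).symm (Polynomial.C r) :=
    (Pool.Agent.Lib.MP_16285c_ag.up_C r).symm
  rw [h2, AlgEquiv.apply_symm_apply]

end Pool.Agent.Lib.MP_16285c_agS
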