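import Pool.Agent.Lib.MP_16285c_agS.Top.Spec

/-!
# Dense orbits on surfaces: the local ring of the closure of the orbit (over a smaller field) is preserved
-/

set_option autoImplicit false

namespace Pool.Agent.Lib.MP_16285c_agS

open Pool.Agent.Lib.MP_16285c_ag Pool.Agent.Lib.MP_16285c_agN

namespace TopPresKM

theorem eval_map_eq {K K' : Type} [Field K] [Field K'] [Algebra K K'] {n : ℕ} (x : Fin n → K')
    (G : Pl n K) : MvPolynomial.eval x (MvPolynomial.map (algebraMap K K') G) =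
      MvPolynomial.aeval x G := by
  rw [MvPolynomial.eval_map, MvPolynomial.aeval_def]

theorem mem_vanK {K K' : Type} [Field K] [Field K'] [Algebra K K'] {n : ℕ} (z : ℕ → Fin n → K')
    (M : ℕ) (G : Pl n K) : G ∈ vanK K z M ↔ ∀ t : ℕ, MvPolynomial.aeval (z (M * t)) G = 0 := by
  rw [vanK, Ideal.mem_comap, mem_van]
  refine forall_congr' fun t => ?_
  rw [eval_map_eq]

end TopPresKM

open TopPresKM in
/-- (PresK) The local ring of the closure of the orbit is preserved. -/
theorem tPresK (hu : StmtUni) : StmtPresK := by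
  intro K _ n f σ hf K' _ _ z N N' p hp hz hN H
  obtain ⟨E, N₁, hN₁, h1⟩ := hu K n f σ hf (N * N') H
  have h2 := h1 K' z hz
  have key : ∀ t, MvPolynomial.aeval (z (N * N' * t)) N₁ =
      MvPolynomial.aeval (z (N * N' * t)) E * MvPolynomial.aeval (z (N * N' * (t + 1))) H :=
    fun t => (h2 (N * N' * t)).2
  refine ⟨E, N₁, fun h => (h2 (N * N' * 0)).1 ((mem_vanK z _ E).1 h 0), hN₁, ?_, ?_⟩
  · intro h
    rw [mem_vanK] at h ⊢
    intro t
    rw [key t, h (t + 1), mul_zero]
  · intro h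
    rw [mem_vanK] at h ⊢
    by_contra hcon
    push Not at hcon
    obtain ⟨t₀, ht₀⟩ := hcon
    rw [← eval_map_eq] at ht₀
    obtain ⟨J, hJ⟩ := hN _ _ ht₀
    have h3 := hJ N'
    have hpos : 0 < p ^ J := pow_pos hp.pos J
    obtain ⟨q, hq⟩ : ∃ q : ℕ, p ^ J = q + 1 := ⟨p ^ J - 1, by omega⟩
    have h4 : N * N' * t₀ + N * p ^ J * N' = N * N' * (t₀ + q + 1) := by
      rw [hq]
      ring
    rw [h4, eval_map_eq] at h3
    have h5 := h (t₀ + q)
    rw [key] at h5
    exact mul_ne_zero (h2 _).1 h3 h5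

end Pool.Agent.Lib.MP_16285c_agS
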