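import Pool.Agent.Lib.MP_16285c_agS.Top.Spec
import Pool.Agent.Lib.MP_16285c_agN.Prim

/-!
# The primitive element on a subvariety (proof of `StmtPrimS`)
-/

set_option autoImplicit false

namespace Pool.Agent.Lib.MP_16285c_agS.TopPrimSM

open Polynomial

/-- A monic polynomial over a quotient lifts to a monic polynomial of the same degree. -/
theorem exists_lift (R : Type) [CommRing R] (I : Ideal R) (F₀ : Polynomial (R ⧸ I))
    (h0 : F₀.Monic) :
    ∃ F : Polynomial R, F.Monic ∧ F.natDegree = F₀.natDegree ∧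
      F.map (Ideal.Quotient.mk I) = F₀ := by
  have hl : F₀ ∈ Polynomial.lifts (Ideal.Quotient.mk I) := by
    rw [Polynomial.lifts_iff_coeff_lifts]
    intro i
    exact Ideal.Quotient.mk_surjective _
  obtain ⟨F, hF, hdeg, hFm⟩ := Polynomial.lifts_and_natDegree_eq_and_monic hl h0
  exact ⟨F, hFm, hdeg, hF⟩

end Pool.Agent.Lib.MP_16285c_agS.TopPrimSM

namespace Pool.Agent.Lib.MP_16285c_agS

open Pool.Agent.Lib.MP_16285c_ag Pool.Agent.Lib.MP_16285c_agN

/-- Proof of `StmtPrimS`. -/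
theorem tPrimS : StmtPrimS := by
  intro K _ _ n 𝔮 _ E _ _ _ _ _ ρ h1
  have hc : CharZero E := charZero_of_injective_algebraMap (algebraMap K E).injective
  have h1' : 1 ≤ Module.finrank ρ.fieldRange E := Module.finrank_pos
  obtain ⟨μ, θ, hμm, hμd, hμi, hμ0⟩ := PrimM.exists_min K E ρ h1'
  obtain ⟨D, F₀, hD, hFm, hFd, hFs⟩ := PrimM.exists_scale (CR 𝔮) E μ hμm
  obtain ⟨F, hF1, hF2, hF3⟩ := TopPrimSM.exists_lift (Pl n K) 𝔮 F₀ hFm
  have hD' : algebraMap (CR 𝔮) E D ≠ 0 := by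
    intro h
    exact hD ((IsFractionRing.injective (CR 𝔮) E) (by rw [h, map_zero]))
  obtain ⟨u, v, hv, huv⟩ := IsFractionRing.div_surjective (A := CR 𝔮)
    (ρ (algebraMap (CR 𝔮) E D) * θ)
  obtain ⟨u, rfl⟩ := Ideal.Quotient.mk_surjective u
  obtain ⟨w, rfl⟩ := Ideal.Quotient.mk_surjective v
  have hmap : F.map (toF 𝔮 E) = μ.scaleRoots (algebraMap (CR 𝔮) E D) := by
    rw [← hFs, ← hF3, Polynomial.map_map]
  refine ⟨F, u, w, hF1, ?_, ?_, ?_, ?_⟩
  · rw [hF2, hFd, hμd]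
  · rw [hmap]
    exact PrimM.irr_scale E μ _ hD' hμi
  · intro hw
    exact nonZeroDivisors.ne_zero hv (Ideal.Quotient.eq_zero_iff_mem.2 hw)
  · rw [← Polynomial.eval₂_map, hmap]
    have huv' : toF 𝔮 E u / toF 𝔮 E w = ρ (algebraMap (CR 𝔮) E D) * θ := huv
    rw [huv']
    exact Polynomial.scaleRoots_eval₂_eq_zero (ρ : E →+* E) hμ0

end Pool.Agent.Lib.MP_16285c_agS
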