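import Pool.Agent.Lib.MP_16285c_agS.Top.Spec

/-!
# (RkK): the dimension does not change under an algebraic extension of the constants
-/

set_option autoImplicit false

namespace Pool.Agent.Lib.MP_16285c_agS

open Pool.Agent.Lib.MP_16285c_ag Pool.Agent.Lib.MP_16285c_agN

/-- (RkK) -/
theorem tRkK : StmtRkK := by
  intro K K' _ _ _ _ n 𝔭' _
  obtain ⟨φ, hφ⟩ : ∃ φ : Pl n K →+* Pl n K', φ = MvPolynomial.map (algebraMap K K') := ⟨_, rfl⟩
  rw [← hφ]
  have hprime : (𝔭'.comap φ).IsPrime := Ideal.comap_isPrime φ 𝔭'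
  obtain ⟨𝔭, h𝔭⟩ : ∃ 𝔭 : Ideal (Pl n K), 𝔭 = 𝔭'.comap φ := ⟨_, rfl⟩
  rw [← h𝔭] at hprime ⊢
  have hle : 𝔭 ≤ 𝔭'.comap φ := h𝔭.le
  obtain ⟨j, hj⟩ : ∃ j : CR 𝔭 →+* CR 𝔭', j = Ideal.quotientMap 𝔭' φ hle := ⟨_, rfl⟩
  have hjm : ∀ G : Pl n K, j (cl 𝔭 G) = cl 𝔭' (φ G) := by
    intro G
    rw [hj]
    exact Ideal.quotientMap_mk
  have hinj : Function.Injective j := by
    rw [hj]
    exact Ideal.quotientMap_injective' h𝔭.ge
  let _ : Algebra (CR 𝔭) (CR 𝔭') := j.toAlgebra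
  have hmap : ∀ a : CR 𝔭, algebraMap (CR 𝔭) (CR 𝔭') a = j a := fun _ => rfl
  have hK : ∀ a : K, algebraMap K (CR 𝔭) a = cl 𝔭 (MvPolynomial.C a) := fun _ => rfl
  have htK : IsScalarTower K K' (CR 𝔭') := inferInstance
  have ht : IsScalarTower K (CR 𝔭) (CR 𝔭') := by
    refine IsScalarTower.of_algebraMap_eq (R := K) (S := CR 𝔭) (A := CR 𝔭') fun a => ?_
    rw [hmap, hK, hjm, hφ, MvPolynomial.map_C]
    exact IsScalarTower.algebraMap_apply K K' (CR 𝔭') a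
  have hf : FaithfulSMul (CR 𝔭) (CR 𝔭') := (faithfulSMul_iff_algebraMap_injective _ _).2 hinj
  have hKinj : Function.Injective (algebraMap K (CR 𝔭)) := (algebraMap K (CR 𝔭)).injective
  have halg : Algebra.IsAlgebraic (CR 𝔭) (CR 𝔭') := by
    refine ⟨fun x => ?_⟩
    obtain ⟨G, rfl⟩ := Ideal.Quotient.mk_surjective x
    induction G using MvPolynomial.induction_on with
    | C a =>
      have h1 : IsAlgebraic K a := Algebra.IsAlgebraic.isAlgebraic a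
      have h2 : IsAlgebraic K (algebraMap K' (CR 𝔭') a) := h1.algebraMap
      exact h2.extendScalars hKinj
    | add p q hp hq =>
      rw [map_add]
      exact hp.add hq
    | mul_X p i hp =>
      rw [map_mul]
      refine hp.mul ?_
      have h3 : cl 𝔭' (MvPolynomial.X i) = algebraMap (CR 𝔭) (CR 𝔭') (cl 𝔭 (MvPolynomial.X i)) := by
        rw [hmap, hjm, hφ, MvPolynomial.map_X]
      change IsAlgebraic (CR 𝔭) (cl 𝔭' (MvPolynomial.X i))
      rw [h3]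
      exact isAlgebraic_algebraMap _
  have h1 : Algebra.trdeg K (CR 𝔭) + Algebra.trdeg (CR 𝔭) (CR 𝔭') = Algebra.trdeg K (CR 𝔭') :=
    trdeg_add_eq K (CR 𝔭)
  have h2 : Algebra.trdeg K K' + Algebra.trdeg K' (CR 𝔭') = Algebra.trdeg K (CR 𝔭') :=
    trdeg_add_eq K K'
  have h3 : Algebra.trdeg (CR 𝔭) (CR 𝔭') = 0 := trdeg_eq_zero
  have h4 : Algebra.trdeg K K' = 0 := trdeg_eq_zero
  rw [h3, add_zero] at h1
  rw [h4, zero_add] at h2
  unfold rk
  rw [h1, h2]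

end Pool.Agent.Lib.MP_16285c_agS
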