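import Pool.Agent.Lib.MP_16285c_agS.Top.Spec

/-!
# Proof of `StmtTow2`

The hypotheses on `α`, `β`, `G` are not needed.
-/

set_option autoImplicit false

namespace Pool.Agent.Lib.MP_16285c_agS

open Pool.Agent.Lib.MP_16285c_ag Pool.Agent.Lib.MP_16285c_agN

namespace TopTow2M

variable {K : Type} [Field K]

/-- The value of a polynomial at `pt t z₀`. -/
theorem aeval_pt {K' : Type} [Field K'] [Algebra K K'] (t : Fin 2 → K) (z₀ : K') (P : Pl 3 K) :
    MvPolynomial.aeval (pt t z₀) P = Polynomial.eval₂ ((algebraMap K K').comp (MvPolynomial.eval t)) z₀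
      (MvPolynomial.finSuccEquiv K 2 P) := by
  have h : ((MvPolynomial.aeval (pt t z₀) : Pl 3 K →ₐ[K] K') : Pl 3 K →+* K')
      = (Polynomial.eval₂RingHom ((algebraMap K K').comp (MvPolynomial.eval t)) z₀).comp
        (MvPolynomial.finSuccEquiv K 2).toRingEquiv.toRingHom := by
    apply MvPolynomial.ringHom_ext
    · intro a
      simp [MvPolynomial.finSuccEquiv_apply]
    · intro i
      refine Fin.cases ?_ (fun j => ?_) i
      · simp [MvPolynomial.finSuccEquiv_X_zero, pt]
      · simp [MvPolynomial.finSuccEquiv_X_succ, pt]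
  exact DFunLike.congr_fun h P

theorem aeval_up {K' : Type} [Field K'] [Algebra K K'] (t : Fin 2 → K) (z₀ : K') (G : Pl 2 K) :
    MvPolynomial.aeval (pt t z₀) (up K G) = algebraMap K K' (MvPolynomial.eval t G) := by
  unfold up
  rw [MvPolynomial.aeval_rename]
  have h : (pt t z₀ : Fin 3 → K') ∘ Fin.succ = fun i => algebraMap K K' (t i) := by
    funext i
    simp [pt]
  rw [h]
  have h2 := MvPolynomial.aeval_algebraMap_apply K' t G
  rw [MvPolynomial.aeval_eq_eval] at h2
  exact h2

/-- The key inequality. -/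
theorem key (P : Pl 3 K) (F : Polynomial (Pl 3 K)) (H : Polynomial (Pl 2 K))
    (Θ : Polynomial (Pl 3 K)) (hH : H.Monic)
    (hmem : H.eval₂ (Polynomial.C.comp (up K : Pl 2 K →+* Pl 3 K)) Θ ∈
      Ideal.span {Polynomial.C P, F}) (t : Fin 2 → K)
    (hirr : Irreducible (H.map (MvPolynomial.eval t)))
    (K' : Type) [Field K'] [Algebra K K'] [FiniteDimensional K K'] (z₀ : K')
    (hz : MvPolynomial.aeval (pt t z₀) P = 0) (M : Type) [Field M] [Algebra K' M] [Algebra K M]
    [IsScalarTower K K' M] [FiniteDimensional K' M] (y : M)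
    (hy : Polynomial.eval₂ ((algebraMap K' M).comp
      ((MvPolynomial.aeval (pt t z₀) : Pl 3 K →ₐ[K] K') : Pl 3 K →+* K')) y F = 0) :
    H.natDegree ≤ Module.finrank K K' * Module.finrank K' M := by
  set φ : Pl 3 K →+* M := (algebraMap K' M).comp
    ((MvPolynomial.aeval (pt t z₀) : Pl 3 K →ₐ[K] K') : Pl 3 K →+* K') with hφ
  set ψ : Polynomial (Pl 3 K) →+* M := Polynomial.eval₂RingHom φ y with hψ
  have hker : Ideal.span {Polynomial.C P, F} ≤ RingHom.ker ψ := by
    rw [Ideal.span_le]
    intro Q hQ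
    rcases hQ with rfl | hQ
    · rw [SetLike.mem_coe, RingHom.mem_ker, hψ, Polynomial.coe_eval₂RingHom, Polynomial.eval₂_C, hφ]
      change algebraMap K' M (MvPolynomial.aeval (pt t z₀) P) = 0
      rw [hz, map_zero]
    · rw [Set.mem_singleton_iff.1 hQ]
      exact hy
  have h0 : ψ (H.eval₂ (Polynomial.C.comp (up K : Pl 2 K →+* Pl 3 K)) Θ) = 0 := hker hmem
  rw [Polynomial.hom_eval₂] at h0
  have hcomp : ψ.comp (Polynomial.C.comp (up K : Pl 2 K →+* Pl 3 K))
      = (algebraMap K M).comp (MvPolynomial.eval t) := by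
    ext G
    · rw [RingHom.comp_apply, RingHom.comp_apply, hψ, Polynomial.coe_eval₂RingHom,
        RingHom.comp_apply, Polynomial.eval₂_C, hφ]
      change algebraMap K' M (MvPolynomial.aeval (pt t z₀) (up K (MvPolynomial.C G))) = _
      rw [aeval_up, ← IsScalarTower.algebraMap_apply]
      rfl
    · rw [RingHom.comp_apply, hψ, Polynomial.coe_eval₂RingHom,
        RingHom.comp_apply, Polynomial.eval₂_C, hφ]
      change algebraMap K' M (MvPolynomial.aeval (pt t z₀) (up K (MvPolynomial.X G))) = _
      rw [aeval_up, ← IsScalarTower.algebraMap_apply]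
      rfl
  rw [hcomp, ← Polynomial.eval₂_map] at h0
  have h1 : H.map (MvPolynomial.eval t) = minpoly K (ψ Θ) :=
    minpoly.eq_of_irreducible_of_monic hirr h0 (hH.map _)
  haveI : FiniteDimensional K M := FiniteDimensional.trans K K' M
  have h2 : (minpoly K (ψ Θ)).natDegree ≤ Module.finrank K M := minpoly.natDegree_le _
  rw [← h1, hH.natDegree_map, ← Module.finrank_mul_finrank K K' M] at h2
  exact h2

/-- A monic polynomial with an irreducible factor of the same degree is irreducible. -/
theorem irr_of_factor {k : Type} [Field k] (Q q : Polynomial k) (hQ : Q.Monic) (hq : Irreducible q)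
    (hd : q ∣ Q) (h : Q.natDegree ≤ q.natDegree) : Irreducible Q := by
  obtain ⟨c, hc⟩ := hd
  have hc0 : c ≠ 0 := by
    intro h0
    rw [h0, mul_zero] at hc
    exact hQ.ne_zero hc
  have h1 : Q.natDegree = q.natDegree + c.natDegree := by
    rw [hc, Polynomial.natDegree_mul hq.ne_zero hc0]
  have h2 : c.natDegree = 0 := by omega
  have hu : IsUnit c := Polynomial.isUnit_iff_degree_eq_zero.2
    (by rw [Polynomial.degree_eq_natDegree hc0, h2]; rfl)
  have h3 : Associated q Q := ⟨hu.unit, hc.symm⟩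
  exact h3.irreducible hq

end TopTow2M

open TopTow2M in
theorem tTow2 : StmtTow2 := by
  intro K _ P hPm hP F hF hT H α β G Θ hH hdeg hmem _ _ t _ hirr
  set δ := (MvPolynomial.finSuccEquiv K 2 P).natDegree with hδ
  have hδ1 : 1 ≤ δ := by
    by_contra h
    have h0 : (MvPolynomial.finSuccEquiv K 2 P).natDegree = 0 := by omega
    have h1 : MvPolynomial.finSuccEquiv K 2 P = 1 := (Polynomial.Monic.natDegree_eq_zero hPm).1 h0
    have h2 : P = 1 := (MvPolynomial.finSuccEquiv K 2).injective (by rw [h1, map_one])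
    exact hP.not_isUnit (by rw [h2]; exact isUnit_one)
  set Pt : Polynomial K := (MvPolynomial.finSuccEquiv K 2 P).map (MvPolynomial.eval t) with hPt
  have hPtm : Pt.Monic := hPm.map _
  have hPtd : Pt.natDegree = δ := hPm.natDegree_map _
  -- the second step: a lower bound for the degrees
  have step : ∀ (K' : Type) [Field K'] [Algebra K K'] [FiniteDimensional K K'] (z₀ : K'),
      MvPolynomial.aeval (pt t z₀) P = 0 →
      ∃ q : Polynomial K', Irreducible q ∧ q ∣ F.map
        ((MvPolynomial.aeval (pt t z₀) : Pl 3 K →ₐ[K] K') : Pl 3 K →+* K') ∧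
        δ * F.natDegree ≤ Module.finrank K K' * q.natDegree ∧ q.natDegree ≤ F.natDegree := by
    intro K' _ _ _ z₀ hz
    set F₀ := F.map ((MvPolynomial.aeval (pt t z₀) : Pl 3 K →ₐ[K] K') : Pl 3 K →+* K') with hF₀
    have hF₀m : F₀.Monic := hF.map _
    have hF₀d : F₀.natDegree = F.natDegree := hF.natDegree_map _
    obtain ⟨q, hq, hqF⟩ := Polynomial.exists_irreducible_of_natDegree_pos
      (f := F₀) (by omega)
    haveI : Fact (Irreducible q) := ⟨hq⟩
    let pb := AdjoinRoot.powerBasis (K := K') hq.ne_zero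
    haveI : FiniteDimensional K' (AdjoinRoot q) := pb.finite
    have hfin : Module.finrank K' (AdjoinRoot q) = q.natDegree := by
      rw [pb.finrank, AdjoinRoot.powerBasis_dim]
    have hy : Polynomial.eval₂ ((algebraMap K' (AdjoinRoot q)).comp
        ((MvPolynomial.aeval (pt t z₀) : Pl 3 K →ₐ[K] K') : Pl 3 K →+* K'))
        (AdjoinRoot.root q) F = 0 := by
      rw [← Polynomial.eval₂_map, ← hF₀]
      obtain ⟨c, hc⟩ := hqF
      rw [hc, Polynomial.eval₂_mul, AdjoinRoot.algebraMap_eq, AdjoinRoot.eval₂_root, zero_mul]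
    have h1 := key P F H Θ hH hmem t hirr K' z₀ hz (AdjoinRoot q) (AdjoinRoot.root q) hy
    rw [hdeg, hfin] at h1
    refine ⟨q, hq, hqF, h1, ?_⟩
    rw [← hF₀d]
    exact Polynomial.natDegree_le_of_dvd hqF hF₀m.ne_zero
  constructor
  · obtain ⟨q, hq, hqP⟩ := Polynomial.exists_irreducible_of_natDegree_pos
      (f := Pt) (by omega)
    haveI : Fact (Irreducible q) := ⟨hq⟩
    let pb := AdjoinRoot.powerBasis (K := K) hq.ne_zero
    haveI : FiniteDimensional K (AdjoinRoot q) := pb.finite
    have hfin : Module.finrank K (AdjoinRoot q) = q.natDegree := by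
      rw [pb.finrank, AdjoinRoot.powerBasis_dim]
    have hz : MvPolynomial.aeval (pt t (AdjoinRoot.root q)) P = 0 := by
      rw [aeval_pt, ← Polynomial.eval₂_map, ← hPt]
      obtain ⟨c, hc⟩ := hqP
      rw [hc, Polynomial.eval₂_mul, AdjoinRoot.algebraMap_eq, AdjoinRoot.eval₂_root, zero_mul]
    obtain ⟨q', -, -, h1, h2⟩ := step (AdjoinRoot q) (AdjoinRoot.root q) hz
    rw [hfin] at h1
    refine irr_of_factor Pt q hPtm hq hqP ?_
    rw [hPtd]
    by_contra hlt
    have h3 : q.natDegree + 1 ≤ δ := by omega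
    have h4 : q.natDegree * q'.natDegree ≤ q.natDegree * F.natDegree := Nat.mul_le_mul_left _ h2
    have h5 : (q.natDegree + 1) * F.natDegree ≤ δ * F.natDegree := Nat.mul_le_mul_right _ h3
    rw [add_mul, one_mul] at h5
    omega
  · intro K' _ _ z₀ hadj hz
    have hzPt : Polynomial.aeval z₀ Pt = 0 := by
      rw [Polynomial.aeval_def, hPt, Polynomial.eval₂_map, ← aeval_pt]
      exact hz
    have hint : IsIntegral K z₀ := ⟨Pt, hPtm, hzPt⟩
    haveI hfd : FiniteDimensional K (IntermediateField.adjoin K {z₀}) :=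
      IntermediateField.adjoin.finiteDimensional hint
    have hfd' : FiniteDimensional K K' := by
      rw [hadj] at hfd
      exact (IntermediateField.topEquiv (F := K) (E := K')).toLinearEquiv.finiteDimensional
    have hrank : Module.finrank K K' ≤ δ := by
      have h1 : Module.finrank K (IntermediateField.adjoin K {z₀}) = (minpoly K z₀).natDegree :=
        IntermediateField.adjoin.finrank hint
      rw [hadj, IntermediateField.finrank_top'] at h1
      rw [h1, ← hPtd]
      exact Polynomial.natDegree_le_of_dvd (minpoly.dvd K z₀ hzPt) hPtm.ne_zero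
    obtain ⟨q, hq, hqF, h1, h2⟩ := step K' z₀ hz
    refine irr_of_factor _ q (hF.map _) hq hqF ?_
    rw [hF.natDegree_map]
    by_contra hlt
    have h3 : q.natDegree + 1 ≤ F.natDegree := by omega
    have h4 : Module.finrank K K' * q.natDegree ≤ δ * q.natDegree := Nat.mul_le_mul_right _ hrank
    have h5 : δ * (q.natDegree + 1) ≤ δ * F.natDegree := Nat.mul_le_mul_left _ h3
    rw [mul_add, mul_one] at h5
    omega

end Pool.Agent.Lib.MP_16285c_agS
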