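import Pool.Agent.Lib.MP_16285c_agN.AllN
import Pool.Agent.Lib.MP_16285c_agS.Dgv.All
import Pool.Agent.Lib.MP_16285c_agS.Top.Conj
import Pool.Agent.Lib.MP_16285c_agS.Top.Core
import Pool.Agent.Lib.MP_16285c_agS.Top.Desc
import Pool.Agent.Lib.MP_16285c_agS.Top.Dom
import Pool.Agent.Lib.MP_16285c_agS.Top.Fin
import Pool.Agent.Lib.MP_16285c_agS.Top.InvD
import Pool.Agent.Lib.MP_16285c_agS.Top.IrrK
import Pool.Agent.Lib.MP_16285c_agS.Top.LowS
import Pool.Agent.Lib.MP_16285c_agS.Top.MoveS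
import Pool.Agent.Lib.MP_16285c_agS.Top.NoDesc
import Pool.Agent.Lib.MP_16285c_agS.Top.NoE
import Pool.Agent.Lib.MP_16285c_agS.Top.NoPow
import Pool.Agent.Lib.MP_16285c_agS.Top.Nrm
import Pool.Agent.Lib.MP_16285c_agS.Top.PresK
import Pool.Agent.Lib.MP_16285c_agS.Top.PresS
import Pool.Agent.Lib.MP_16285c_agS.Top.PrimS
import Pool.Agent.Lib.MP_16285c_agS.Top.RkK
import Pool.Agent.Lib.MP_16285c_agS.Top.Tow1
import Pool.Agent.Lib.MP_16285c_agS.Top.Tow2
import Pool.Agent.Lib.MP_16285c_agS.Top.Uni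

/-!
# Sections C and D: closed forms
-/

set_option autoImplicit false

namespace Pool.Agent.Lib.MP_16285c_agS

open Pool.Agent.Lib.MP_16285c_ag Pool.Agent.Lib.MP_16285c_agN

theorem cTow : StmtTow := by
  intro K _ _ P hm hP E _ _ _ F hF hFi
  obtain ⟨H, α, β, G, Θ, hH, hd, hHi, hG, h1, h2, h3⟩ := tTow1 K P hm hP E F hF hFi
  have hdeg : 1 ≤ F.natDegree := by
    have e := hFi.natDegree_pos
    rw [hF.natDegree_map] at e
    exact e
  exact ⟨H, G, hH, hHi, hG, tTow2 K P hm hP F hF hdeg H α β G Θ hH hd h1 h2 h3⟩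

/-- The core of the argument. -/
theorem cCoreS (h : StmtCan) : StmtCoreS :=
  tCoreS stmtResF tG1 tRk2 (tRk3 tRk2) aTan tNoE (tPresK tUni) tRkK (tIrrK aIrr) tPrimS tNrm
    (tMoveS tUni) cTow tLowS (cCanS h)

/-- The theorem for the model, from the box and section F. -/
theorem cModelS (hBox : StmtBoxS) (h : StmtCan) : StmtModelS :=
  tFinS hBox tDom (tPresS stmtJacQ) stmtResF tG1 tNoE tNoPow tNoDesc tInvD iLiftC2 aHitPt iDesc
    (cCoreS h) tConj tDesc

end Pool.Agent.Lib.MP_16285c_agS
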