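import Pool.Agent.Lib.MP_16285c_agN.SpecN
import Pool.Agent.Lib.MP_16285c_agS.Dgv.Spec
import Pool.Agent.Lib.MP_16285c_agS.Hrx.Spec

/-!
# Dense orbits on surfaces: the model and the interfaces of the sections B, C, D, G of note 4871

MODEL. The surface is `P = 0` in affine three-space, `P : Pl 3 K` irreducible and monic in `z = X 0` (`x₁ = X 1`, `x₂ = X 2`; `MonZ P`). The rational map is the
restriction of an ambient rational map `f : RM K 3`.
-/

set_option autoImplicit false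

namespace Pool.Agent.Lib.MP_16285c_agS

open Pool.Agent.Lib.MP_16285c_ag Pool.Agent.Lib.MP_16285c_agN

section

variable {K : Type} [Field K]

/-- The surface `P = 0` is preserved by `f`; `f` is a local isomorphism at its general point, and so is its restriction to the surface. -/
def InvS (f : RM K 3) (P : Pl 3 K) : Prop :=
  (∀ i, ¬ P ∣ f.den i) ∧ ¬ P ∣ jac f ∧ ¬ P ∣ Hrx.jX P f ∧
    ∃ E N : Pl 3 K, ¬ P ∣ E ∧ fr (P * N) = fr E * f.comp P

/-- No invariant rational functions on the surface `P = 0`. -/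
def NoIS (f : RM K 3) (P : Pl 3 K) : Prop :=
  ∀ A B : Pl 3 K, ¬ P ∣ B →
    (∃ E N : Pl 3 K, ¬ P ∣ E ∧ fr (P * N) = fr E * (f.comp A * fr B - f.comp B * fr A)) →
    ∃ c : K, P ∣ A - MvPolynomial.C c * B

/-- No invariant rational functions on the surface `P = 0`, for a homomorphism `σ` of the function field of the ambient space. -/
def NoR (σ : RF 3 K →ₐ[K] RF 3 K) (P : Pl 3 K) : Prop :=
  ∀ A B : Pl 3 K, ¬ P ∣ B →
    (∃ E N : Pl 3 K, ¬ P ∣ E ∧ fr (P * N) = fr E * (σ (fr A) * fr B - σ (fr B) * fr A)) →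
    ∃ c : K, P ∣ A - MvPolynomial.C c * B

/-- The homomorphism from the polynomials to the field of fractions `L` of `K[x] / 𝔭`. -/
noncomputable abbrev toF {n : ℕ} (𝔭 : Ideal (Pl n K)) (L : Type) [Field L] [Algebra (CR 𝔭) L] :
    Pl n K →+* L :=
  (algebraMap (CR 𝔭) L).comp (Ideal.Quotient.mk 𝔭)

/-- The point `(z₀, t₀, t₁)` over `t`. -/
def pt {K' : Type} [Field K'] [Algebra K K'] (t : Fin 2 → K) (z₀ : K') : Fin 3 → K' :=
  Fin.cons z₀ fun i => algebraMap K K' (t i)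

/-- The polynomials over `K` vanishing at the points `z (M t)` with coordinates in `K'`. -/
noncomputable def vanK (K : Type) [Field K] {n : ℕ} {K' : Type} [Field K'] [Algebra K K']
    (z : ℕ → Fin n → K') (M : ℕ) : Ideal (Pl n K) :=
  (van z M).comap (MvPolynomial.map (algebraMap K K'))

end

/-- (B) Box on the surface (section B of note 4871, helper24). -/
def StmtBoxS : Prop :=
  ∀ (k : Type) [Field k] [IsAlgClosed k] [CharZero k] (P : Pl 3 k) (f : RM k 3), Irreducible P →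
    MonZ P → InvS f P → ∀ B : Pl 3 k, ¬ P ∣ B → ∀ p₀ : ℕ,
    ∃ (V : ValuationSubring k) (p : ℕ) (a : Fin 3 → IsLocalRing.ResidueField V) (N : ℕ),
      p.Prime ∧ p₀ < p ∧ CharP (IsLocalRing.ResidueField V) p ∧ 1 ≤ N ∧
      (∃ r : ℕ, 1 ≤ r ∧ ∀ i, a i ^ (p ^ r) = a i) ∧
      (∀ t : Fin 2 → k, (∀ i : Fin 2, Lies V (t i) (a i.succ)) →
        ∃ z₀ : k, Lies V z₀ (a 0) ∧ MvPolynomial.eval (Fin.cons z₀ t : Fin 3 → k) P = 0) ∧
      ∀ x₀ : Fin 3 → k, (∀ i, Lies V (x₀ i) (a i)) → MvPolynomial.eval x₀ P = 0 →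
        ∃ x : ℕ → Fin 3 → k, x 0 = x₀ ∧ f.Orb x ∧
          (∀ m, MvPolynomial.eval (x m) P = 0 ∧ MvPolynomial.eval (x m) B ≠ 0) ∧
          Pool.Agent.ZDO.ClN N p x

/-- The theorem for the model (interface to section G, helper24). -/
def StmtModelS : Prop :=
  ∀ (k : Type) [Field k] [IsAlgClosed k] [CharZero k] (P : Pl 3 k) (f : RM k 3), Irreducible P →
    MonZ P → InvS f P → NoIS f P → ∀ b : Pl 3 k, ¬ P ∣ b →
    ∃ x : ℕ → Fin 3 → k, f.Orb x ∧
      (∀ m, MvPolynomial.eval (x m) P = 0 ∧ MvPolynomial.eval (x m) b ≠ 0) ∧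
      ∀ G : Pl 3 k, ¬ P ∣ G → ∃ m, MvPolynomial.eval (x m) G ≠ 0

end Pool.Agent.Lib.MP_16285c_agS
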