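import Pool.Agent.Lib.MP_16285c_agS.Top.Spec

/-!
# Dense orbits on surfaces: points which move (`StmtMoveS`)
-/

set_option autoImplicit false

namespace Pool.Agent.Lib.MP_16285c_agS

open Pool.Agent.Lib.MP_16285c_ag Pool.Agent.Lib.MP_16285c_agN

namespace TopMoveSM

/-- A polynomial monic in `X 0` and irreducible does not divide `X 1 - C c`. -/
theorem not_dvd {K : Type} [Field K] {P : Pl 3 K} (hP : Irreducible P) (hm : MonZ P) (c : K) :
    ¬ P ∣ MvPolynomial.X 1 - MvPolynomial.C c * 1 := by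
  intro hd
  have h1 : MvPolynomial.finSuccEquiv K 2 P ∣
      MvPolynomial.finSuccEquiv K 2 (MvPolynomial.X 1 - MvPolynomial.C c * 1) :=
    map_dvd (MvPolynomial.finSuccEquiv K 2) hd
  have h2 : MvPolynomial.finSuccEquiv K 2 (MvPolynomial.X 1 - MvPolynomial.C c * 1) =
      Polynomial.C (MvPolynomial.X 0 - MvPolynomial.C c) := by
    have h3 : (1 : Fin 3) = Fin.succ (0 : Fin 2) := rfl
    rw [mul_one, map_sub, h3, MvPolynomial.finSuccEquiv_X_succ, map_sub]
    congr 1
    simp [MvPolynomial.finSuccEquiv_apply]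
  rw [h2] at h1
  have h4 : (MvPolynomial.X 0 - MvPolynomial.C c : MvPolynomial (Fin 2) K) ≠ 0 := by
    intro h0
    have h5 := congrArg (MvPolynomial.eval fun _ : Fin 2 => c + 1) h0
    simp at h5
  have h6 : (Polynomial.C (MvPolynomial.X 0 - MvPolynomial.C c) :
      Polynomial (MvPolynomial (Fin 2) K)) ≠ 0 := by
    rwa [Ne, Polynomial.C_eq_zero]
  have h7 := Polynomial.natDegree_le_of_dvd h1 h6
  rw [Polynomial.natDegree_C] at h7
  have h8 : MvPolynomial.finSuccEquiv K 2 P = 1 :=
    Polynomial.Monic.natDegree_eq_zero hm |>.mp (by omega)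
  have h9 : P = 1 := (MvPolynomial.finSuccEquiv K 2).injective (by rw [h8, map_one])
  exact hP.not_isUnit (h9 ▸ isUnit_one)

end TopMoveSM

open TopMoveSM in
theorem tMoveS (hu : StmtUni) : StmtMoveS := by
  intro K _ P f σ M hP hm hf hPres hNo
  obtain ⟨E, N, hE, hN, -⟩ := hPres (MvPolynomial.X 1)
  rw [Ideal.mem_span_singleton] at hE
  refine ⟨N - MvPolynomial.X 1 * E, ?_, ?_⟩
  · intro hd
    obtain ⟨N', hN'⟩ := hd
    obtain ⟨c, hc⟩ := hNo (MvPolynomial.X 1) 1 (fun h => hP.not_isUnit (isUnit_of_dvd_one h))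
      ⟨E, N', hE, by
        rw [← hN']
        simp only [fr, map_sub, map_mul, map_one] at hN ⊢
        rw [hN]
        ring⟩
    exact not_dvd hP hm c hc
  · intro K' _ _ y hy hG hM
    apply hG
    obtain ⟨E', N', hN', h⟩ := hu K 3 f σ hf M (MvPolynomial.X 1)
    obtain ⟨h1, h2⟩ := h K' y hy 0
    have h3 : N' * E = N * E' := by
      apply IsFractionRing.injective (MvPolynomial (Fin 3) K) (FractionRing (MvPolynomial (Fin 3) K))
      rw [map_mul, map_mul]
      change fr N' * fr E = fr N * fr E'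
      rw [hN', hN]
      ring
    have h4 := congrArg (MvPolynomial.aeval (y 0) : MvPolynomial (Fin 3) K →ₐ[K] K') h3
    rw [map_mul, map_mul, h2, zero_add, hM, MvPolynomial.aeval_X] at h4
    rw [map_sub, map_mul, MvPolynomial.aeval_X]
    have h5 : MvPolynomial.aeval (y 0) E' *
        (MvPolynomial.aeval (y 0) N - y 0 1 * MvPolynomial.aeval (y 0) E) = 0 := by
      linear_combination -h4
    rcases mul_eq_zero.mp h5 with h6 | h6
    · exact absurd h6 h1
    · exact h6

end Pool.Agent.Lib.MP_16285c_agS
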