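import Pool.Agent.Lib.MP_16285c_agS.Top.Defs

/-!
# Dense orbits on surfaces: orbit closure and assembly for the model: statements (sections C and D of note 4871)

Notation of stage 1: `Lib/MP_16285c_agN/Defs.lean`, `SpecR.lean`, `SpecG.lean`, `SpecF.lean`, `KLV/Spec.lean`, `DEG4a/Spec.lean` (please read `Defs.lean` first); `Top/Defs.lean`; `Dgv/Spec.lean` (`up`, `StmtCanS`). All these packages are
proved or in progress. Every lemma below is a `Prop` with its complete proof in the docstring; used statements are hypotheses: file `Top/X.lean`, `theorem tX : StmtX` or `theorem tX (h : StmtY) : StmtX`, namespace `Pool.Agent.Lib.MP_16285c_agS`, auxiliary lemmas in the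
namespace `Pool.Agent.Lib.MP_16285c_agS.TopXM`. Within this namespace `up`, `StmtCan` are the ones of `Dgv/Spec.lean` and of `Defs.lean` of this directory.
-/

set_option autoImplicit false

namespace Pool.Agent.Lib.MP_16285c_agS

open Pool.Agent.Lib.MP_16285c_ag Pool.Agent.Lib.MP_16285c_agN

/-! ## General lemmas -/

/-- (Dom) PROOF. `f.comp` is injective: otherwise let `G ≠ 0` be of minimal total degree with `f.comp G = 0`. `G` is not constant. The elements `g i = fr (num i) / fr (den i)` satisfy `G(g) = 0`, and for the derivation `∂_j` of `RF n K` (the extension of `pderiv j`; `exists_derivation` in `ZDO/Jac.lean` for `v` = unit vector) `0 = ∑ i, (pderiv i G)(g) * ∂_j (g i)`,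
and the matrix `∂_j (g i) = fr (wj f i j) / fr (den i) ^ 2` is invertible (`jac f ≠ 0`). So `(pderiv i G)(g) = 0` for all `i`, so `pderiv i G = 0` for all `i` by minimality (total degree is smaller), so `G` is constant (characteristic zero; compare coefficients). Then `σ` is the extension of `f.comp` to the field of fractions
(`IsFractionRing.liftAlgHom`). -/
def StmtDom : Prop :=
  ∀ (K : Type) [Field K] [CharZero K] (n : ℕ) (f : RM K n), (∀ i, f.den i ≠ 0) → jac f ≠ 0 →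
    ∃ σ : RF n K →ₐ[K] RF n K, Of f σ

/-- (Uni) Representatives which are good along all orbits. PROOF. Induction on `M`. `M = 0`: `E = 1`, `N = H`. One step (`M = 1`, all `H`): induction on `H` (`MvPolynomial.induction_on`): constants; sums `E = E₁ E₂`, `N = N₁ E₂ + N₂ E₁`; `H * X i`: `E = E₁ * f.den i`, `N = N₁ * f.num i`. (`Orb` of `f.map` says `aeval (z j) (f.den i) ≠ 0` and
`z (j+1) i * aeval (z j) (f.den i) = aeval (z j) (f.num i)`, as `eval x (map φ G) = aeval x G`.) Step: `(E, N)` for `M`, `H`; `(E₁, N₁)` for `1`, `N`, and `(E₂, N₂)` for `1`, `E`. `σ ^ (M+1) (fr H) = σ (fr N / fr E)`; take `E' = E₁ * N₂`, `N' = N₁ * E₂`; `N₂(z j) = E₂(z j) * E(z (j+1)) ≠ 0`. -/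
def StmtUni : Prop :=
  ∀ (K : Type) [Field K] (n : ℕ) (f : RM K n) (σ : RF n K →ₐ[K] RF n K), Of f σ →
    ∀ (M : ℕ) (H : Pl n K), ∃ E N : Pl n K, fr N = fr E * (σ ^ M) (fr H) ∧
      ∀ (K' : Type) [Field K'] [Algebra K K'] (z : ℕ → Fin n → K'),
        (f.map (algebraMap K K')).Orb z → ∀ j : ℕ, MvPolynomial.aeval (z j) E ≠ 0 ∧
          MvPolynomial.aeval (z j) N =
            MvPolynomial.aeval (z j) E * MvPolynomial.aeval (z (j + M)) H

/-- (PresS) PROOF (uses `StmtJacQ`). `σ (fr G) = f.comp G` for all `G` (both are algebra homomorphisms; compare on `X i` with `Of`). Given `H`: let `D = ∏ i, f.den i`, not divisible by `P` (`P` is prime), and `e` with `fr N = fr (D ^ e) * σ (fr H)` for a polynomial `N` (induction on `H`). `E = D ^ e ∉ span {P}`. If `P ∣ H`, `H = P * H'`: from `InvS`,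
`fr (P * N₀) = fr E₀ * σ (fr P)`, and for `H'`: `fr N' = fr (D ^ e') * σ (fr H')`; so `N * E₀ * D ^ e' = D ^ e * P * N₀ * N'` and `P ∣ N` (`P` prime, not dividing `E₀`, `D`). If `P ∣ N` and not `P ∣ H` then `P` and `H` are relatively prime, `Dv P (σ (fr P))` (from `InvS`: `E = E₀`, `N = P * N₀`) and `Dv P (σ (fr H))` (`E = D ^ e`), so `StmtJacQ` (with `Q = P`, `h = H`) gives
`P ∣ jac f`: a contradiction. -/
def StmtPresS : Prop :=
  ∀ (K : Type) [Field K] [CharZero K] (P : Pl 3 K) (f : RM K 3) (σ : RF 3 K →ₐ[K] RF 3 K),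
    Irreducible P → Of f σ → InvS f P → Pres σ (Ideal.span {P})

/-- (NoE) PROOF. Write `π = toF (span {P}) E`, a ring homomorphism with kernel `(P)`; every element of `E` is `π A / π B` with `¬ P ∣ B`. Residues (`Rsd`) are unique (`LowM.uniq` in `Lib/MP_16285c_agN/Low.lean`), `Rsd (fr A) (π A)` (`LowM.res_fr`), so `Rst` gives `N_A, E_A` with `¬ P ∣ E_A`, `σ (fr A) * fr E_A = fr N_A`, `ρ (π A) * π E_A = π N_A`.
`→`: let `ρ h = h`, `h = π A / π B`. `fr (E_A E_B) * (σ (fr A) * fr B - σ (fr B) * fr A) = fr W`, `W = N_A E_B B - N_B E_A A`, `π W = π (E_A E_B) * (ρ (π A) * π B - ρ (π B) * π A) = 0`, so `W = P * N`; `NoR` gives `c` with `P ∣ A - C c * B`, so `π A = c * π B`, `h = algebraMap c` (`toF (C c) = algebraMap K E c`, scalar tower).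
`←`: given `A, B, E₀, N` put `h = π A / π B`. `E_A E_B P N = E₀ W` (`fr` is injective), so `π E₀ * π W = 0`, `π W = 0`, so `ρ (π A) * π B = ρ (π B) * π A`, `ρ h = h` (`ρ (π B) ≠ 0`). So `h = c`, `π (A - C c * B) = 0`, `P ∣ A - C c * B`. -/
def StmtNoE : Prop :=
  ∀ (K : Type) [Field K] (P : Pl 3 K) [(Ideal.span {P}).IsPrime] (σ : RF 3 K →ₐ[K] RF 3 K)
    (E : Type) [Field E] [Algebra (CR (Ideal.span {P})) E] [IsFractionRing (CR (Ideal.span {P})) E] [Algebra K E]
    [IsScalarTower K (CR (Ideal.span {P})) E] (ρ : E →ₐ[K] E), Rst σ (Ideal.span {P}) E ρ →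
    (NoR σ P ↔ ∀ h : E, ρ h = h → ∃ c : K, h = algebraMap K E c)

/-- (NoPow) PROOF. `F = ∏ i < M, (Y - (ρ ^ i) h) ∈ L[Y]`. `F.map ρ = ∏ i < M, (Y - (ρ ^ (i+1)) h) = F` since `(ρ ^ M) h = h` (`Finset.prod_range_succ`, `Finset.prod_range_succ'`). So the coefficients of `F` are in `k`, `h` is a root of `F` (factor `i = 0`), so `h` is integral over `k`, and `k` is algebraically closed (`IsAlgClosed.algebraMap_bijective_of_isIntegral` for `k[h]`, or:
the polynomial over `k` splits, so `h` is the image of a root). See `KLV/NoIPow.lean` in `Lib/MP_16285c_agN` for a similar proof. -/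
def StmtNoPowE : Prop :=
  ∀ (k L : Type) [Field k] [IsAlgClosed k] [Field L] [Algebra k L] (ρ : L →ₐ[k] L),
    (∀ h : L, ρ h = h → ∃ c : k, h = algebraMap k L c) → ∀ M : ℕ, 1 ≤ M →
    ∀ h : L, (ρ ^ M) h = h → ∃ c : k, h = algebraMap k L c

/-- (NoDesc) PROOF. Let `A, B, E, N` be given over `K`, `φ = map (algebraMap K k)` (injective). Division with remainder by the monic polynomial `P` in the variable `X 0` (`finSuccEquiv K 2`, `Polynomial.modByMonic`) is compatible with `φ` (`Polynomial.map_modByMonic`; `finSuccEquiv` commutes with `map`: see `map_up` in `Lib/MP_16285c_ag/Base.lean`): so `P ∣ G ↔ φ P ∣ φ G`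
(or `Polynomial.map_dvd_map`). Apply `bc 3 K k` (`bc_fr`, `cmp_apply`) to the relation: `fr (φ P * φ N) = fr (φ E) * (σ (fr (φ A)) * fr (φ B) - …)`. So there is `c : k` with `φ P ∣ φ A - C c * φ B`. Let `R_A, R_B` be the remainders of `A, B`, `R_B ≠ 0`: `φ R_A - c φ R_B` is divisible by `φ P` and of smaller degree, so it is `0`. Some coefficient `b ∈ K` of `R_B` is not `0`; let
`a` be the corresponding coefficient of `R_A`: `a = c b` in `k`, so `c = algebraMap K k (a / b)`, and `φ P ∣ φ (A - C (a / b) * B)`, so `P ∣ A - C (a / b) * B`. -/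
def StmtNoDesc : Prop :=
  ∀ (K k : Type) [Field K] [Field k] [Algebra K k] (P : Pl 3 K) (σK : RF 3 K →ₐ[K] RF 3 K)
    (σ : RF 3 k →ₐ[k] RF 3 k), MonZ P → Cmp σK σ →
    NoR σ (MvPolynomial.map (algebraMap K k) P) → NoR σK P

/-- (InvD) PROOF. `φ = map (algebraMap K k)` is injective. (1) If `P ∣ G` then `φ P ∣ φ G`; `(f.map _).den i = φ (f.den i)`, `jac (f.map _) = φ (jac f)` (`Pool.Agent.ZDO.map_Jc`), `Hrx.jX (φ P) (f.map _) = φ (Hrx.jX P f)` (`Pool.Agent.ZDO.map_Wd`, `MvPolynomial.pderiv_map`), `bc 3 K k (f.comp G) = (f.map _).comp (φ G)` (compare on generators), `bc` is injective. (2) If `P = A * B` then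
`φ A` or `φ B` is a unit, a nonzero constant, so `A` or `B` is a constant (coefficients), not `0`. `P` is not a unit. (3) `finSuccEquiv k 2 (φ P) = (finSuccEquiv K 2 P).map φ` (`map_up` in `Lib/MP_16285c_ag/Base.lean`), same degree and leading coefficient (`Polynomial.natDegree_map_eq_of_injective`); so the leading coefficient of `P` is `1`. -/
def StmtInvD : Prop :=
  (∀ (K k : Type) [Field K] [Field k] [Algebra K k] (P E N : Pl 3 K) (f : RM K 3),
    (∀ i, ¬ MvPolynomial.map (algebraMap K k) P ∣ (f.map (algebraMap K k)).den i) →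
    ¬ MvPolynomial.map (algebraMap K k) P ∣ jac (f.map (algebraMap K k)) →
    ¬ MvPolynomial.map (algebraMap K k) P ∣ Hrx.jX (MvPolynomial.map (algebraMap K k) P) (f.map (algebraMap K k)) →
    ¬ MvPolynomial.map (algebraMap K k) P ∣ MvPolynomial.map (algebraMap K k) E →
    fr (MvPolynomial.map (algebraMap K k) P * MvPolynomial.map (algebraMap K k) N) =
      fr (MvPolynomial.map (algebraMap K k) E) *
        (f.map (algebraMap K k)).comp (MvPolynomial.map (algebraMap K k) P) → InvS f P) ∧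
  (∀ (K k : Type) [Field K] [Field k] [Algebra K k] (n : ℕ) (P : Pl n K),
    Irreducible (MvPolynomial.map (algebraMap K k) P) → Irreducible P) ∧
  ∀ (K k : Type) [Field K] [Field k] [Algebra K k] (P : Pl 3 K),
    MonZ (MvPolynomial.map (algebraMap K k) P) ↔ MonZ P

/-- (PresK) PROOF (uses `StmtUni`). Let `𝔭 = vanK K z (N * N')`, `M = N * N'`. `StmtUni` for `M`, `H` gives `E, N₁` with `E(z j) ≠ 0` for all `j`, so `E ∉ 𝔭` (`H ∈ 𝔭 ↔ ∀ t, aeval (z (M t)) H = 0`). `N₁(z (M t)) = E(z (M t)) * H(z (M (t+1)))`. `H ∈ 𝔭` implies `N₁ ∈ 𝔭`. If `N₁ ∈ 𝔭` then `H(z (M t)) = 0` for all `t ≥ 1`; if `H(z 0) ≠ 0` then `ClN N p z` for `map H` gives `J` with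
`H(z (N p ^ J s)) ≠ 0` for all `s`; `s = N'` gives `t = p ^ J ≥ 1`: a contradiction. -/
def StmtPresK : Prop :=
  ∀ (K : Type) [Field K] (n : ℕ) (f : RM K n) (σ : RF n K →ₐ[K] RF n K), Of f σ →
    ∀ (K' : Type) [Field K'] [Algebra K K'] (z : ℕ → Fin n → K') (N N' p : ℕ), p.Prime →
    (f.map (algebraMap K K')).Orb z → Pool.Agent.ZDO.ClN N p z →
    Pres (σ ^ (N * N')) (vanK K z (N * N'))

/-- (RkK) PROOF. Let `𝔭` be the inverse image. `CR 𝔭 → CR 𝔭'` is injective, and every element of `CR 𝔭'` is algebraic over `CR 𝔭` (it is a polynomial in the classes of the variables with coefficients in `K'`, which are algebraic over `K`; sums and products of algebraic elements are algebraic over a domain). So `trdeg K (CR 𝔭') = trdeg K (CR 𝔭)` and, since `K'` is algebraic over `K`,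
`trdeg K (CR 𝔭') = trdeg K' (CR 𝔭')` (`Algebra.trdeg_add_eq` for the towers `K ⊆ CR 𝔭 ⊆ CR 𝔭'` and `K ⊆ K' ⊆ CR 𝔭'`, with `trdeg = 0` for algebraic extensions). -/
def StmtRkK : Prop :=
  ∀ (K K' : Type) [Field K] [Field K'] [Algebra K K'] [Algebra.IsAlgebraic K K'] (n : ℕ)
    (𝔭' : Ideal (Pl n K')) [𝔭'.IsPrime],
    rk (𝔭'.comap (MvPolynomial.map (algebraMap K K') : Pl n K →+* Pl n K')) = rk 𝔭'

/-- (IrrK) Irreducibility over a smaller field. PROOF (uses `StmtIrr`). Let `L' = FractionRing (CR 𝔭')`, `F' = F.map (MvPolynomial.map (algebraMap K K'))`, monic, with `F'.map (eval x) = F.map (aeval x)` irreducible. `StmtIrr` for `𝔭'`: `F'.map (toF 𝔭' L')` is irreducible. `CR 𝔭 → CR 𝔭'` is injective (`𝔭` is the inverse image), so it extends to `j : L → L'` (`IsFractionRing.lift`), and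
`(F.map (toF 𝔭 L)).map j = F'.map (toF 𝔭' L')`. A monic polynomial whose image under an injective homomorphism is irreducible is irreducible (`Polynomial.Monic.irreducible_of_irreducible_map`). -/
def StmtIrrK : Prop :=
  ∀ (K K' : Type) [Field K] [Field K'] [CharZero K'] [Algebra K K'] (n : ℕ) (𝔭' : Ideal (Pl n K'))
    [𝔭'.IsPrime] (x : Fin n → K'), (∀ G ∈ 𝔭', MvPolynomial.eval x G = 0) →
    Grd 𝔭' x (n - rk 𝔭') → ∀ (𝔭 : Ideal (Pl n K)) [𝔭.IsPrime],
    𝔭 = 𝔭'.comap (MvPolynomial.map (algebraMap K K')) →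
    ∀ (L : Type) [Field L] [Algebra (CR 𝔭) L] [IsFractionRing (CR 𝔭) L] (F : Polynomial (Pl n K)),
      F.Monic →
      Irreducible (F.map ((MvPolynomial.aeval x : Pl n K →ₐ[K] K') : Pl n K →+* K')) →
      Irreducible (F.map (toF 𝔭 L))

/-- (PrimS) PROOF. As `StmtPrim` (`Lib/MP_16285c_agN/Prim.lean`, namespace `Pool.Agent.Lib.MP_16285c_agN.PrimM`: `exists_min`, `exists_scale`, `irr_scale` are general, use them) with `E` in place of `RF n K`: `E` is finite over `ρ.fieldRange`, separable (characteristic zero), primitive element `θ`, minimal polynomial transported along `E ≃ ρ.fieldRange`: `μ' ∈ E[Y]` monic irreducible of degree `T` with `eval₂ ρ θ μ' = 0`. Common denominator: `D ∉ 𝔮` with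
`toF D * μ'_i ∈ range toF` for all `i`. `F' = scaleRoots μ' (toF D)`, lifted to a monic `F` of the same degree (`Polynomial.lifts_and_natDegree_eq_and_monic`). `ρ (toF D) * θ = toF u / toF w`. -/
def StmtPrimS : Prop :=
  ∀ (K : Type) [Field K] [CharZero K] (n : ℕ) (𝔮 : Ideal (Pl n K)) [𝔮.IsPrime] (E : Type) [Field E]
    [Algebra (CR 𝔮) E] [IsFractionRing (CR 𝔮) E] [Algebra K E] [IsScalarTower K (CR 𝔮) E]
    (ρ : E →ₐ[K] E), Module.Finite ρ.fieldRange E →
    ∃ (F : Polynomial (Pl n K)) (u w : Pl n K), F.Monic ∧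
      F.natDegree = Module.finrank ρ.fieldRange E ∧ Irreducible (F.map (toF 𝔮 E)) ∧ w ∉ 𝔮 ∧
      Polynomial.eval₂ ((ρ : E →+* E).comp (toF 𝔮 E)) (toF 𝔮 E u / toF 𝔮 E w) F = 0

/-- (Nrm) PROOF. `S = MvPolynomial (Fin 2) K`, `Q = RF 2 K`, `P♯ = finSuccEquiv K 2 P ∈ S[Z]` monic, irreducible, so irreducible over `Q` (`Polynomial.Monic.irreducible_iff_irreducible_map_fraction_map`). `P♯` does not divide the image of `G♯` over `Q` (`Polynomial.map_dvd_map`, monic). So `a P♯ + b G♯ = 1` with `a, b ∈ Q[Z]` (`Irreducible.coprime_iff_not_dvd`). Clear the denominators: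
`R ∈ S`, `R ≠ 0`, `R a`, `R b` from `S[Z]` (`IsLocalization.integerNormalization`, or `IsLocalization.exist_integer_multiples_of_finset`). `finSuccEquiv K 2 (up K R) = Polynomial.C R` (`up_C` in `Lib/MP_16285c_ag/Base.lean`). -/
def StmtNrm : Prop :=
  ∀ (K : Type) [Field K] (P : Pl 3 K), Irreducible P → MonZ P → ∀ G : Pl 3 K, ¬ P ∣ G →
    ∃ (R : Pl 2 K) (A B : Pl 3 K), R ≠ 0 ∧ up K R = A * P + B * G

/-- (MoveS) PROOF (uses `StmtUni`). `Pres` for `H = X 1`: `E, N` with `¬ P ∣ E`, `fr N = fr E * (σ ^ M) (fr (X 1))`. `G = N - X 1 * E`. If `P ∣ G`, `G = P * N'`, then `fr (P * N') = fr E * ((σ ^ M) (fr (X 1)) * fr 1 - (σ ^ M) (fr 1) * fr (X 1))`, so by `NoR` for `A = X 1`, `B = 1`: `P ∣ X 1 - C c`, a nonzero polynomial of degree `0` in `X 0`; but `P` is monic in `X 0`, not a unit, so of positive degree in `X 0`: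
a contradiction. Let `y` be an orbit, `y M = y 0`. `StmtUni` for `M`, `X 1`: `E', N'` with `E'(y 0) ≠ 0`, `N'(y 0) = E'(y 0) * y M 1`, `fr N' = fr E' * (σ ^ M) (fr (X 1))`, so `N' * E = N * E'`, `E'(y 0) * y 0 1 * E(y 0) = N(y 0) * E'(y 0)`, so `G(y 0) = 0`. -/
def StmtMoveS : Prop :=
  ∀ (K : Type) [Field K] (P : Pl 3 K) (f : RM K 3) (σ : RF 3 K →ₐ[K] RF 3 K) (M : ℕ),
    Irreducible P → MonZ P → Of f σ → Pres (σ ^ M) (Ideal.span {P}) → NoR (σ ^ M) P →
    ∃ G : Pl 3 K, ¬ P ∣ G ∧ ∀ (K' : Type) [Field K'] [Algebra K K'] (y : ℕ → Fin 3 → K'),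
      (f.map (algebraMap K K')).Orb y → MvPolynomial.aeval (y 0) G ≠ 0 → y M ≠ y 0

/-! ## Tower of irreducible fibres -/

/-- (Tow1) A primitive element of the tower. PROOF. `S = Pl 2 K`, `Q = RF 2 K`, `P♯ = finSuccEquiv K 2 P ∈ S[Z]` monic of degree `δ ≥ 1`, irreducible over `Q` (`Polynomial.Monic.irreducible_iff_irreducible_map_fraction_map`). `S → E`, `G ↦ toF _ E (up K G)`, is injective (a multiple of `P` which does not involve `X 0` is `0`), so it extends to `Q → E` (`IsFractionRing.lift`); `E = Q(z)`,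
`z` = image of `X 0` (every element of `E` is a quotient of images of polynomials), the minimal polynomial of `z` over `Q` is the image of `P♯`, so `[E : Q] = δ`. `E₂ = AdjoinRoot (F.map (toF _ E))`, `[E₂ : E] = F.natDegree = T`, `[E₂ : Q] = δ T`. Let `θ` be a primitive element of `E₂ / Q` (characteristic zero). `E₂` is spanned over `Q` by the `z ^ i Y ^ j`, so after multiplication
with a nonzero element of `S` (`θ` remains primitive) `θ` is the image of some `Θ ∈ (Pl 3 K)[Y]`. `θ` is integral over `S` (`z` is integral over `S`, `Y` over `S[z]`); `H = minpoly S θ` (`minpoly.isIntegrallyClosed_eq_field_fractions`: its image over `Q` is the minimal polynomial, irreducible, of degree `δ T`). `z = a(θ)`, `Y = b(θ)` with `a, b ∈ Q[X]` (`IntermediateField.adjoin_simple_eq_top`: every element is a polynomial in `θ`);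
`G` = common denominator, `α = G a`, `β = G b`. KERNEL: if `W ∈ (Pl 3 K)[Y]` maps to `0` in `E₂` then `W ∈ span {C P, F}`: `W = F * A + R` (`%ₘ`), `degree R < degree F`, the image of `R` over `E` is divisible by that of `F`, so it is `0`, so all the coefficients of `R` are divisible by `P`. -/
def StmtTow1 : Prop :=
  ∀ (K : Type) [Field K] [CharZero K] (P : Pl 3 K) (_ : MonZ P) (_ : Irreducible P) (E : Type) [Field E]
    [Algebra (CR (Ideal.span {P})) E] [IsFractionRing (CR (Ideal.span {P})) E]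
    (F : Polynomial (Pl 3 K)), F.Monic → Irreducible (F.map (toF (Ideal.span {P}) E)) →
    ∃ (H α β : Polynomial (Pl 2 K)) (G : Pl 2 K) (Θ : Polynomial (Pl 3 K)), H.Monic ∧
      H.natDegree = (MvPolynomial.finSuccEquiv K 2 P).natDegree * F.natDegree ∧
      Irreducible (H.map (algebraMap (Pl 2 K) (RF 2 K))) ∧ G ≠ 0 ∧
      H.eval₂ (Polynomial.C.comp (up K : Pl 2 K →+* Pl 3 K)) Θ ∈ Ideal.span {Polynomial.C P, F} ∧
      α.eval₂ (Polynomial.C.comp (up K : Pl 2 K →+* Pl 3 K)) Θ -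
        Polynomial.C (up K G * MvPolynomial.X 0) ∈ Ideal.span {Polynomial.C P, F} ∧
      β.eval₂ (Polynomial.C.comp (up K : Pl 2 K →+* Pl 3 K)) Θ -
        Polynomial.C (up K G) * Polynomial.X ∈ Ideal.span {Polynomial.C P, F}

/-- (Tow2) Specialisation. PROOF. Let `K'`, `z₀` with `P(pt t z₀) = 0`, `K(z₀) = K'` be given and `y₀` a root of `F₀ = F.map (aeval (pt t z₀))` (monic, of degree `T ≥ 1`) in `Ω = AlgebraicClosure K'`. `ψ : (Pl 3 K)[Y] → Ω`, `eval₂` with `aeval (pt t z₀)` and `Y ↦ y₀`, kills `C P` and `F`, and `ψ (C (up K G)) = eval t G` (image of an element of `K`). `Θ₀ = ψ Θ`: `H(t, Θ₀) = 0`,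
`G(t) z₀ = α(t, Θ₀)`, `G(t) y₀ = β(t, Θ₀)`. So `z₀, y₀ ∈ K(Θ₀)`, `[K(Θ₀) : K] = δ T` (`H(t, X)` is irreducible, monic, of degree `δ T`), `Θ₀ ∈ K(z₀, y₀)`: so `δ T = [K(z₀, y₀) : K] = [K' : K] [K'(y₀) : K']` (tower), where `[K' : K] ≤ δ` (`z₀` is a root of the monic `P(Z, t)` of degree `δ`: `eval_up` in `Lib/MP_16285c_ag/Base.lean` or `MvPolynomial.eval_eq_eval_mv_eval'`) and
`[K'(y₀) : K'] ≤ T`. So both are equalities (`δ, T ≥ 1`): `minpoly K z₀ = P(Z, t)`, so it is irreducible, and `minpoly K' y₀ = F₀`, so it is irreducible (`minpoly.natDegree_le` / `minpoly.min`, `Polynomial.eq_of_monic_of_dvd_of_natDegree_le`). For the first part of the conclusion take for `K'` the field `K(z₀)` (`AdjoinRoot` of an irreducible factor of `P(Z, t)`, or `IntermediateField.adjoin`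
in an algebraic closure). -/
def StmtTow2 : Prop :=
  ∀ (K : Type) [Field K] (P : Pl 3 K) (_ : MonZ P) (_ : Irreducible P) (F : Polynomial (Pl 3 K)),
    F.Monic → 1 ≤ F.natDegree →
    ∀ (H α β : Polynomial (Pl 2 K)) (G : Pl 2 K) (Θ : Polynomial (Pl 3 K)), H.Monic →
      H.natDegree = (MvPolynomial.finSuccEquiv K 2 P).natDegree * F.natDegree →
      H.eval₂ (Polynomial.C.comp (up K : Pl 2 K →+* Pl 3 K)) Θ ∈ Ideal.span {Polynomial.C P, F} →
      α.eval₂ (Polynomial.C.comp (up K : Pl 2 K →+* Pl 3 K)) Θ -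
        Polynomial.C (up K G * MvPolynomial.X 0) ∈ Ideal.span {Polynomial.C P, F} →
      β.eval₂ (Polynomial.C.comp (up K : Pl 2 K →+* Pl 3 K)) Θ -
        Polynomial.C (up K G) * Polynomial.X ∈ Ideal.span {Polynomial.C P, F} →
      ∀ t : Fin 2 → K, MvPolynomial.eval t G ≠ 0 → Irreducible (H.map (MvPolynomial.eval t)) →
        Irreducible ((MvPolynomial.finSuccEquiv K 2 P).map (MvPolynomial.eval t)) ∧
        ∀ (K' : Type) [Field K'] [Algebra K K'] (z₀ : K'), IntermediateField.adjoin K {z₀} = ⊤ →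
          MvPolynomial.aeval (pt t z₀) P = 0 →
          Irreducible (F.map ((MvPolynomial.aeval (pt t z₀) : Pl 3 K →ₐ[K] K') : Pl 3 K →+* K'))

/-- (Tow) PROOF. `StmtTow1` and `StmtTow2` (`1 ≤ F.natDegree` since `F.map _` is irreducible). -/
def StmtTow : Prop :=
  ∀ (K : Type) [Field K] [CharZero K] (P : Pl 3 K) (_ : MonZ P) (_ : Irreducible P) (E : Type) [Field E]
    [Algebra (CR (Ideal.span {P})) E] [IsFractionRing (CR (Ideal.span {P})) E]
    (F : Polynomial (Pl 3 K)), F.Monic → Irreducible (F.map (toF (Ideal.span {P}) E)) →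
    ∃ (H : Polynomial (MvPolynomial (Fin 2) K)) (G : MvPolynomial (Fin 2) K), H.Monic ∧
      Irreducible (H.map (algebraMap (Pl 2 K) (RF 2 K))) ∧ G ≠ 0 ∧
      ∀ t : Fin 2 → K, MvPolynomial.eval t G ≠ 0 → Irreducible (H.map (MvPolynomial.eval t)) →
        Irreducible ((MvPolynomial.finSuccEquiv K 2 P).map (MvPolynomial.eval t)) ∧
        ∀ (K' : Type) [Field K'] [Algebra K K'] (z₀ : K'), IntermediateField.adjoin K {z₀} = ⊤ →
          MvPolynomial.aeval (pt t z₀) P = 0 →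
          Irreducible (F.map ((MvPolynomial.aeval (pt t z₀) : Pl 3 K →ₐ[K] K') : Pl 3 K →+* K'))

/-! ## Lower bound for the residue degree -/

/-- (LowS) PROOF. `π = toF 𝔮 E`, `ϖ = toF 𝔭 L`. For every coefficient `c` of `F` (finitely many) `Pres σ' 𝔭` gives `E_c ∉ 𝔭` (so `∉ 𝔮`) and `N_c` with `fr N_c = fr E_c * σ' (fr c)`. By `Rst σ' 𝔮 E ρ` for `Rsd (fr c) (π c)` and the uniqueness of residues (`LowM.res_fr`, `LowM.uniq` in `Lib/MP_16285c_agN/Low.lean`): `π N_c = π E_c * ρ (π c)`, and in the same way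
`ϖ N_c = ϖ E_c * ρb (ϖ c)`. With `T = F.natDegree`, `c_i = F.coeff i` put `W = ∑ i ≤ T, (∏ j ≠ i, E_(c_j)) * N_(c_i) * u ^ i * w ^ (T - i)`: `π W = (∏ π E_j) * (π w) ^ T * eval₂ (ρ ∘ π) (π u / π w) F = 0`, so `W ∈ 𝔮 ≤ 𝔭`, `ϖ W = 0`, so `eval₂ (ρb ∘ ϖ) (ϖ u / ϖ w) F = 0` (`w ∉ 𝔭`). `F.map ϖ` is irreducible over `L`; the end is `LowM.degree_le` in
`Lib/MP_16285c_agN/Low.lean` (or see there). -/
def StmtLowS : Prop :=
  ∀ (K : Type) [Field K] (n : ℕ) (𝔮 𝔭 : Ideal (Pl n K)) [𝔮.IsPrime] [𝔭.IsPrime], 𝔮 ≤ 𝔭 →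
    ∀ (σ' : RF n K →ₐ[K] RF n K), Pres σ' 𝔭 →
    ∀ (E : Type) [Field E] [Algebra (CR 𝔮) E] [IsFractionRing (CR 𝔮) E] [Algebra K E]
      [IsScalarTower K (CR 𝔮) E] (ρ : E →ₐ[K] E), Rst σ' 𝔮 E ρ →
    ∀ (L : Type) [Field L] [Algebra (CR 𝔭) L] [IsFractionRing (CR 𝔭) L] [Algebra K L]
      [IsScalarTower K (CR 𝔭) L] (ρb : L →ₐ[K] L), Rst σ' 𝔭 L ρb → Module.Finite ρb.fieldRange L →
    ∀ (F : Polynomial (Pl n K)) (u w : Pl n K), F.Monic → Irreducible (F.map (toF 𝔭 L)) → w ∉ 𝔭 →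
      Polynomial.eval₂ ((ρ : E →+* E).comp (toF 𝔮 E)) (toF 𝔮 E u / toF 𝔮 E w) F = 0 →
      F.natDegree ≤ Module.finrank ρb.fieldRange L

/-! ## Change of fields -/

/-- (Conj) PROOF. `φ = MvPolynomial.map (algebraMap K k)`; `eval (fun i => ι (y i)) (map (algebraMap K k) G) = ι (eval y (map (algebraMap K K') G))` for `G : Pl n K` (`ι` is a `K`-homomorphism; both sides are ring homomorphisms in `G`, compare on `C`, `X`). Define `y` recursively: `y 0 = y₀`, `y (m+1) i = eval (y m) (num i) / eval (y m) (den i)` (for `f.map (algebraMap K K')`); by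
induction `x m i = ι (y m i)`, the denominators do not vanish as `ι` is injective. Second part: for `G : Pl n K'` apply `ClN N p x` to `map ι G`: `eval (x m) (map ι G) = ι (eval (y m) G)`. -/
def StmtConjS : Prop :=
  (∀ (K K' k : Type) [Field K] [Field K'] [Field k] [Algebra K K'] [Algebra K k] (ι : K' →ₐ[K] k) (n : ℕ)
    (f : RM K n) (x : ℕ → Fin n → k) (y₀ : Fin n → K'), (f.map (algebraMap K k)).Orb x →
    (∀ i, x 0 i = ι (y₀ i)) →
    ∃ y : ℕ → Fin n → K', y 0 = y₀ ∧ (f.map (algebraMap K K')).Orb y ∧ ∀ m i, x m i = ι (y m i)) ∧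
  ∀ (K' k : Type) [Field K'] [Field k] (ι : K' →+* k) (n : ℕ) (x : ℕ → Fin n → k)
    (y : ℕ → Fin n → K') (N p : ℕ), (∀ m i, x m i = ι (y m i)) →
    Pool.Agent.ZDO.ClN N p x → Pool.Agent.ZDO.ClN N p y

/-- (Desc) PROOF. View `k` as a `K'`-algebra by `ι` (`ι.toAlgebra`), and choose a basis `b` of `k` over `K'` (`Module.Basis.ofVectorSpace`). Write `G = ∑ j ∈ s, C (b j) * map ι (G j)` with `G j : Pl n K'`, `s` a finite set of indices (the coefficients of `G j` are the coordinates of the coefficients of `G`; a similar decomposition is used in `descP`, `Lib/MP_16285c_agZ/Fin.lean`). For every `t`: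
`0 = ∑ j, b j * ι (eval (y (M t)) (G j))`, so `eval (y (M t)) (G j) = 0`, so `G j ∈ van y M`, `P ∣ G j`, and `map ι P ∣ G`. -/
def StmtDescS : Prop :=
  ∀ (K' k : Type) [Field K'] [Field k] (ι : K' →+* k) (n : ℕ) (P : Pl n K') (y : ℕ → Fin n → K')
    (M : ℕ), van y M ≤ Ideal.span {P} →
    ∀ G : Pl n k, (∀ t : ℕ, MvPolynomial.eval (fun i => ι (y (M * t) i)) G = 0) →
      MvPolynomial.map ι P ∣ G

/-! ## Core and assembly -/

/-- (Core) PROOF (uses `StmtUni` (inside `StmtMoveS`, `StmtPresK`), `StmtResF`, `StmtG1`, `StmtRk2`, `StmtRk3`, `StmtTan`, `StmtNoE`, `StmtPresK`, `StmtRkK`, `StmtIrrK`, `StmtPrimS`, `StmtNrm`, `StmtMoveS`, `StmtTow`, `StmtLowS`, `StmtCanS`; `pres_pow` in `Lib/MP_16285c_agN/G5.lean`, `van_isPrime` in `CoreN.lean`). Let `𝔮 = span {P}`, prime. `Pres (σ ^ M) 𝔮` (`pres_pow`). `E = FractionRing (CR 𝔮)`, `ρ` from `StmtResF` for `σ ^ M`, `𝔮`: `Rst (σ ^ M) 𝔮 E ρ`,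
finite (`StmtG1`). `ρ h = h` implies `h` constant (`StmtNoE`). `F, u, w` from `StmtPrimS`. `H, G₂` from `StmtTow` for `F`. `Γ` from `StmtCanS` for `σ ^ M`, `ρ`. `G₁` from `StmtMoveS`. `R₁, R₂, R₃` from `StmtNrm` for `G₁`, `w` and `pderiv 0 P` (`¬ P ∣ pderiv 0 P`: its degree in `X 0` is smaller and it is not `0`: characteristic zero, positive degree). `G = G₂ * R₁ * R₂ * R₃ * Γ`.
If `G(t) ≠ 0` and `P(pt t z₀) = 0` then `G₁`, `w`, `pderiv 0 P` do not vanish at `pt t z₀` (`aeval (pt t z₀) (up K R) = algebraMap (eval t R)`). Let `K'`, `z₀`, `y`, … be as in the statement. `P(y 0) = 0`, `𝔭' = van y M`, prime (`van_isPrime`), `P' = map P ∈ 𝔭'`, `span {P'} ≤ 𝔭'`. Suppose the inclusion is strict. `rk 𝔭' < rk (span {P'}) = 2` (`StmtRk2`, `StmtRk3` (c)).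
CASE `rk 𝔭' = 0`: `StmtRk3` (a) for the point `y 0`: `X i - C (y 0 i) ∈ 𝔭'` for all `i`, so `y M = y 0` (`t = 1`), against `StmtMoveS`. CASE `rk 𝔭' = 1`: `𝔭 = vanK K y M = 𝔭'.comap _`, prime, `rk 𝔭 = 1` (`StmtRkK`), `P ∈ 𝔭`, `𝔮 ≤ 𝔭`, `Pres (σ ^ M) 𝔭` (`StmtPresK`; `M = N * N'`: substitute), `L = FractionRing (CR 𝔭)`, `ρb` from `StmtResF`. All elements of `𝔭` vanish at `y 0` (`t = 0`), so
`w, pderiv 0 P ∉ 𝔭`. `Irreducible (F.map (aeval (pt t z₀)))` (`StmtTow`), `Grd 𝔭' (y 0) (3 - rk 𝔭')` (`StmtTan` for `f.map`; `jac (f.map _) = map (jac f)`, `Pool.Agent.ZDO.map_Jc`), so `F.map (toF 𝔭 L)` is irreducible (`StmtIrrK`), `finrank ρ.fieldRange E = F.natDegree ≤ finrank ρb.fieldRange L` (`StmtLowS`). `StmtCanS`: `up K Γ ∈ 𝔭`, so `Γ(t) = 0`: a contradiction. -/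
def StmtCoreS : Prop :=
  ∀ (K : Type) [Field K] [CharZero K] (P : Pl 3 K) (f : RM K 3) (σ : RF 3 K →ₐ[K] RF 3 K) (M : ℕ),
    Irreducible P → MonZ P → Of f σ → Pres σ (Ideal.span {P}) → 1 ≤ M → NoR (σ ^ M) P →
    ∃ (H : Polynomial (Pl 2 K)) (G : Pl 2 K), H.Monic ∧
      Irreducible (H.map (algebraMap (Pl 2 K) (RF 2 K))) ∧ G ≠ 0 ∧
      ∀ t : Fin 2 → K, Irreducible (H.map (MvPolynomial.eval t)) → MvPolynomial.eval t G ≠ 0 →
        Irreducible ((MvPolynomial.finSuccEquiv K 2 P).map (MvPolynomial.eval t)) ∧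
        ∀ (K' : Type) [Field K'] [Algebra K K'] [Algebra.IsAlgebraic K K'] (z₀ : K'),
          IntermediateField.adjoin K {z₀} = ⊤ →
          Irreducible (MvPolynomial.map (algebraMap K K') P) →
          ∀ (y : ℕ → Fin 3 → K') (N N' p p' : ℕ), y 0 = pt t z₀ →
          (f.map (algebraMap K K')).Orb y →
          (∀ m, MvPolynomial.aeval (y m) P = 0 ∧ MvPolynomial.aeval (y m) (jac f) ≠ 0) →
          p.Prime → p'.Prime → p ≠ p' → N * N' = M → Pool.Agent.ZDO.ClN N p y →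
          Pool.Agent.ZDO.ClN N' p' y →
          van y M ≤ Ideal.span {MvPolynomial.map (algebraMap K K') P}

/-- (Fin) PROOF OF `StmtModelS` (uses `StmtBoxS`, `StmtDom`, `StmtPresS`, `StmtResF`, `StmtG1` (c), `StmtNoE`, `StmtNoPowE`, `StmtNoDesc`, `StmtInvD`, `StmtLiftC2`, `StmtHitPt`, `StmtDesc`, `StmtCoreS`, `StmtConjS`, `StmtDescS`; model: `Lib/MP_16285c_agZ/Fin2.lean`, `Fin.lean` (`desc_rm`, `map_map_rm`, `eval_coe`, …) and `FinNN.lean` in `Lib/MP_16285c_agN`). `P` is prime, `𝔮 = span {P}`.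
(0) `σ` with `Of f σ` (`StmtDom`: `P ∣ 0`, so `den i ≠ 0`, `jac f ≠ 0`), `σ (fr G) = f.comp G`. `Pres σ 𝔮` (`StmtPresS`). `NoR σ P` from `NoIS`. `E = FractionRing (CR 𝔮)`, `ρ` from `StmtResF`, `Rst (σ ^ m) 𝔮 E (ρ ^ m)`; `NoR (σ ^ M) P` for all `M ≥ 1` (`StmtNoE`, `StmtNoPowE`). (1) `StmtBoxS` for `B = b * jac f` and `p₀ = 0`: `V, p, a, N`; then for `p₀ = p`: `V', p', a', N'`. `M = N * N'`.
(2) `c : Fin 2 → k` from `StmtLiftC2` for `a i.succ`, `a' i.succ`. (3) `K ⊆ k` = the subfield generated by the coefficients of `P`, `f.num i`, `f.den i`, of the `E₀, N₀` of `InvS`, and the `c i`: a finitely generated field; `f_K, P_K, E_K, N_K, c_K`. `Irreducible P_K`, `MonZ P_K`, `InvS f_K P_K` (`StmtInvD`); `σ_K` with `Of f_K σ_K`, `Cmp σ_K σ` (`StmtDesc`); `Pres σ_K (span {P_K})` (`StmtPresS`);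
`NoR (σ_K ^ M) P_K` (`StmtNoDesc`, `cmp_pow`). (4) `H, G` from `StmtCoreS`; `StmtHitPt` (`n = 2`) for `c_K`, `q = p * p'` gives `t i = c_K i + p p' j i` with `H(t, Y)` irreducible, `G(t) ≠ 0`. So `P(Z, t)` is irreducible over `K`. `Lies V (t i) (a i.succ)`, `Lies V' (t i) (a' i.succ)` as in `Fin2.lean`. (5) `z₀, z₀' : k` from `StmtBoxS` (roots over `t`), the orbits `x`, `x'` of `Fin.cons z₀ t`, `Fin.cons z₀' t`.
(6) `K' = AdjoinRoot (P(Z, t))` (a field, `Fact (Irreducible _)`), finite over `K`, `ζ` = root, `K(ζ) = ⊤`, `ι, ι' : K' →ₐ[K] k` with `ι ζ = z₀`, `ι' ζ = z₀'` (`AdjoinRoot.liftAlgHom` or `AdjoinRoot.lift`; `eval (Fin.cons z₀ t) P = 0` is `P(Z, t)` at `z₀`: `MvPolynomial.eval_eq_eval_mv_eval'`). (7) `StmtConjS` for `ι`, `x` and `y₀ = pt t ζ`: `y`; for `ι'`, `x'`: `y'`; `y = y'` (`orb_unique`). `ClN N p y`, `ClN N' p' y`;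
`ι (aeval (y m) G) = eval (x m) (map G)` for `G : Pl 3 K`: `P` and `jac f` on `y`. `map P_K` over `K'` is irreducible (`StmtInvD` (2) for `ι.toAlgebra`). (8) `StmtCoreS`: `van y M ≤ span {P_(K')}`; `StmtDescS`: every `G : Pl 3 k` which vanishes at all `x (M t)` is divisible by `P`. -/
def StmtFinS : Prop := StmtModelS

end Pool.Agent.Lib.MP_16285c_agS
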