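import Pool.Agent.Lib.MP_16285c_agS.Top.Spec

/-!
# Dense orbits on surfaces: representatives of the iterates which are good along all orbits
-/

set_option autoImplicit false

namespace Pool.Agent.Lib.MP_16285c_agS

open Pool.Agent.Lib.MP_16285c_ag Pool.Agent.Lib.MP_16285c_agN

namespace TopUniM

/-- `N / E` represents `(σ ^ M) H` along all orbits. -/
def Good {K : Type} [Field K] {n : ℕ} (f : RM K n) (σ : RF n K →ₐ[K] RF n K) (M : ℕ)
    (H E N : Pl n K) : Prop :=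
  fr N = fr E * (σ ^ M) (fr H) ∧
    ∀ (K' : Type) [Field K'] [Algebra K K'] (z : ℕ → Fin n → K'),
      (f.map (algebraMap K K')).Orb z → ∀ j : ℕ, MvPolynomial.aeval (z j) E ≠ 0 ∧
        MvPolynomial.aeval (z j) N =
          MvPolynomial.aeval (z j) E * MvPolynomial.aeval (z (j + M)) H

theorem good_zero {K : Type} [Field K] {n : ℕ} (f : RM K n) (σ : RF n K →ₐ[K] RF n K)
    (H : Pl n K) : Good f σ 0 H 1 H := by
  refine ⟨?_, fun K' _ _ z _ j => ⟨?_, ?_⟩⟩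
  · simp only [pow_zero, AlgHom.one_apply, fr, map_one, one_mul]
  · rw [map_one]
    exact one_ne_zero
  · rw [map_one, one_mul, add_zero]

theorem good_C {K : Type} [Field K] {n : ℕ} (f : RM K n) (σ : RF n K →ₐ[K] RF n K) (M : ℕ)
    (c : K) : Good f σ M (MvPolynomial.C c) 1 (MvPolynomial.C c) := by
  refine ⟨?_, fun K' _ _ z _ j => ⟨?_, ?_⟩⟩
  · have h1 : fr (MvPolynomial.C c : Pl n K) = algebraMap K (RF n K) c := by
      rw [fr, ← MvPolynomial.algebraMap_eq, ← IsScalarTower.algebraMap_apply]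
    simp only [fr] at h1
    simp only [fr, h1, AlgHom.commutes, map_one, one_mul]
  · rw [map_one]
    exact one_ne_zero
  · rw [map_one, one_mul, MvPolynomial.aeval_C, MvPolynomial.aeval_C]

theorem good_add {K : Type} [Field K] {n : ℕ} (f : RM K n) (σ : RF n K →ₐ[K] RF n K) (M : ℕ)
    {H₁ H₂ E₁ N₁ E₂ N₂ : Pl n K} (h₁ : Good f σ M H₁ E₁ N₁) (h₂ : Good f σ M H₂ E₂ N₂) :
    Good f σ M (H₁ + H₂) (E₁ * E₂) (N₁ * E₂ + N₂ * E₁) := by
  obtain ⟨a₁, b₁⟩ := h₁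
  obtain ⟨a₂, b₂⟩ := h₂
  refine ⟨?_, fun K' _ _ z hz j => ⟨?_, ?_⟩⟩
  · simp only [fr, map_add, map_mul] at a₁ a₂ ⊢
    rw [a₁, a₂]
    ring
  · rw [map_mul]
    exact mul_ne_zero (b₁ K' z hz j).1 (b₂ K' z hz j).1
  · rw [map_add, map_mul, map_mul, map_mul, map_add, (b₁ K' z hz j).2, (b₂ K' z hz j).2]
    ring

theorem good_mul {K : Type} [Field K] {n : ℕ} (f : RM K n) (σ : RF n K →ₐ[K] RF n K) (M : ℕ)
    {H₁ H₂ E₁ N₁ E₂ N₂ : Pl n K} (h₁ : Good f σ M H₁ E₁ N₁) (h₂ : Good f σ M H₂ E₂ N₂) :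
    Good f σ M (H₁ * H₂) (E₁ * E₂) (N₁ * N₂) := by
  obtain ⟨a₁, b₁⟩ := h₁
  obtain ⟨a₂, b₂⟩ := h₂
  refine ⟨?_, fun K' _ _ z hz j => ⟨?_, ?_⟩⟩
  · simp only [fr, map_mul] at a₁ a₂ ⊢
    rw [a₁, a₂]
    ring
  · rw [map_mul]
    exact mul_ne_zero (b₁ K' z hz j).1 (b₂ K' z hz j).1
  · rw [map_mul, map_mul, map_mul, (b₁ K' z hz j).2, (b₂ K' z hz j).2]
    ring

theorem good_X {K : Type} [Field K] {n : ℕ} (f : RM K n) (σ : RF n K →ₐ[K] RF n K)
    (hf : Of f σ) (i : Fin n) : Good f σ 1 (MvPolynomial.X i) (f.den i) (f.num i) := by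
  refine ⟨?_, fun K' _ _ z hz j => ⟨?_, ?_⟩⟩
  · rw [pow_one, ← (hf i).2, mul_comm]
    rfl
  · have h := (hz j i).1
    rwa [RM.map, MvPolynomial.eval_map, ← MvPolynomial.aeval_def] at h
  · have h := (hz j i).2
    rw [RM.map, MvPolynomial.eval_map, MvPolynomial.eval_map, ← MvPolynomial.aeval_def,
      ← MvPolynomial.aeval_def] at h
    rw [MvPolynomial.aeval_X, ← h, mul_comm]

theorem one_step {K : Type} [Field K] {n : ℕ} (f : RM K n) (σ : RF n K →ₐ[K] RF n K)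
    (hf : Of f σ) (H : Pl n K) : ∃ E N : Pl n K, Good f σ 1 H E N := by
  induction H using MvPolynomial.induction_on with
  | C c => exact ⟨1, MvPolynomial.C c, good_C f σ 1 c⟩
  | add H₁ H₂ h₁ h₂ =>
    obtain ⟨E₁, N₁, g₁⟩ := h₁
    obtain ⟨E₂, N₂, g₂⟩ := h₂
    exact ⟨_, _, good_add f σ 1 g₁ g₂⟩
  | mul_X H i h =>
    obtain ⟨E₁, N₁, g₁⟩ := h
    exact ⟨_, _, good_mul f σ 1 g₁ (good_X f σ hf i)⟩

/-- `σ ^ M (fr H) = fr N / fr E`, and `N`, `E` have good representatives for `σ`. -/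
theorem good_succ {K : Type} [Field K] {n : ℕ} (f : RM K n) (σ : RF n K →ₐ[K] RF n K) (M : ℕ)
    {H E N E₁ N₁ E₂ N₂ : Pl n K} (h : Good f σ M H E N) (h₁ : Good f σ 1 N E₁ N₁)
    (h₂ : Good f σ 1 E E₂ N₂) : Good f σ (M + 1) H (E₁ * N₂) (N₁ * E₂) := by
  obtain ⟨a, b⟩ := h
  obtain ⟨a₁, b₁⟩ := h₁
  obtain ⟨a₂, b₂⟩ := h₂
  refine ⟨?_, fun K' _ _ z hz j => ⟨?_, ?_⟩⟩
  · have h3 : (σ ^ (M + 1)) (fr H) = σ ((σ ^ M) (fr H)) := by
      rw [pow_succ', AlgHom.mul_apply]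
    have h4 : σ (fr N) = σ (fr E) * σ ((σ ^ M) (fr H)) := by rw [a, map_mul]
    rw [pow_one] at a₁ a₂
    simp only [fr, map_mul] at a₁ a₂ h3 h4 ⊢
    rw [h3, a₁, a₂, h4]
    ring
  · have h3 := b₂ K' z hz j
    rw [map_mul, h3.2]
    exact mul_ne_zero (b₁ K' z hz j).1 (mul_ne_zero h3.1 (b K' z hz (j + 1)).1)
  · have h3 := (b K' z hz (j + 1)).2
    have h5 : j + (M + 1) = j + 1 + M := by ring
    rw [map_mul, map_mul, (b₁ K' z hz j).2, (b₂ K' z hz j).2, h3, h5]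
    ring

end TopUniM

open TopUniM in
/-- (Uni) Representatives of the iterates which are good along all orbits. -/
theorem tUni : StmtUni := by
  intro K _ n f σ hf M
  induction M with
  | zero => exact fun H => ⟨1, H, good_zero f σ H⟩
  | succ M ih =>
    intro H
    obtain ⟨E, N, g⟩ := ih H
    obtain ⟨E₁, N₁, g₁⟩ := one_step f σ hf N
    obtain ⟨E₂, N₂, g₂⟩ := one_step f σ hf E
    exact ⟨_, _, good_succ f σ M g g₁ g₂⟩

end Pool.Agent.Lib.MP_16285c_agS
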